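import Mathlib

set_option autoImplicit false

/-! Kernel computations on bit masks. -/

namespace Pool.Agent.H33.AB

/-- number of bits of a number below 256. -/
def pop8 (m : ℕ) : ℕ :=
  Nat.add (Nat.land (Nat.shiftRight 4841987667533046032 (Nat.mul 4 (Nat.land m 15))) 15)
    (Nat.land (Nat.shiftRight 4841987667533046032 (Nat.mul 4 (Nat.shiftRight m 4))) 15)

/-- cell masks. -/
def cm (c : ℕ) : ℕ :=
  Nat.land (Nat.shiftRight 397612904200982238167318595163617433861962225753643319947191196621338432709924480045875 (Nat.mul 8 c)) 255

def tb (v c : ℕ) : Bool := Nat.beq (Nat.land 1 (Nat.shiftRight v c)) 1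

def nz (v : ℕ) : Bool := Nat.ble 1 v

def clr (v : ℕ) : ℕ := Nat.land v (Nat.pred v)

def far (a b : ℕ) : Bool := Nat.ble (pop8 (Nat.land (cm a) (cm b))) 1

def non (a b : ℕ) : Bool := Nat.ble (pop8 (Nat.land (cm a) (cm b))) 2

def ne' (a b : ℕ) : Bool := !(Nat.beq a b)

def bad (l : List ℕ) (c : ℕ) : Bool :=
  l.any (fun a => far a c ||
    l.any (fun b => ne' a b && (
      (non a c && non b c) || (non a b && non a c && ne' b c) ||
      (non a c && ne' a c && ne' b c && l.any (fun d => ne' a d && ne' b d && ne' c d && non b d &&
        Nat.beq (Nat.lor (cm a) (cm c)) (Nat.lor (cm b) (cm d)))))))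

/-- depth first search over sorted sets of cells. -/
def goC (f : ℕ → List ℕ → Bool) : List ℕ → Bool
  | [] => true
  | c :: cs => f c cs && goC f cs

def dfs : ℕ → List ℕ → List ℕ → Bool
  | 0 => fun _ _ => false
  | n + 1 => fun l cand => goC (fun c cs => bad l c || dfs n (c :: l) cs) cand

def CKL : List ℕ :=
  [68717641272, 68602007544, 61203254847, 61084008447, 68712921510, 68299943910, 41875827135,
   41449947135, 68702433184, 67645466686, 67620831166, 67628830654, 67125374974, 35416436671,
   68708463957, 68014661589, 23622145407, 22906667007, 68685389648, 66571457597, 66526117757,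
   66538246013, 65782931453, 18219523967, 68583128516, 60127408439, 59979857399, 59995082231,
   59137556471, 5232360959, 68719430964, 68532043764, 56905432383, 56723722239, 68705841867,
   67846848459, 12884685567, 11998855167, 68651302600, 64423440955, 64342982395, 64357175035,
   63500697595, 9595502335, 68446780354, 51535343791, 51255180271, 51270921199, 50511937519,
   2948529151, 68719389354, 68361650154, 46165392063, 45818490879, 68174084033, 34351214687,
   33806612447, 33822611423, 33311031263, 1602091007, 68719318617, 68071981017, 27907323519,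
   27279597567, 68719243719, 67765272519, 8575250943, 7650181119]

def badList : List ℕ → Bool
  | [] => false
  | c :: l => bad l c || badList l

def q (v : ℕ) : Bool := badList ((List.range 36).filter (tb v))

def big4 (v : ℕ) : Bool := nz (clr (clr (clr (clr v))))

def big13 (v : ℕ) : Bool :=
  nz (clr (clr (clr (clr (clr (clr (clr (clr (clr (clr (clr (clr (clr v)))))))))))))

def go (f : List ℕ → ℕ → Bool) (v : ℕ) : List ℕ → Bool
  | [] => true
  | x :: xs => f (x :: xs) (Nat.land v x) && go f v xs

def chk (pr fin : ℕ → Bool) : ℕ → List ℕ → ℕ → Bool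
  | 0 => fun _ v => fin v
  | 1 => fun l v => pr v || go (fun _ v => fin v) v l
  | n + 2 => fun l v => go (chk pr fin (n + 1)) v l

/-- masks of the cells in the case of one common colour. -/
def cm3 (c : ℕ) : ℕ :=
  Nat.land (Nat.shiftRight 4733463608112875613602871629596565371560723 (Nat.mul 8 c)) 255

def CK3 : List ℕ :=
  [111103, 184831, 221695, 29183, 229887, 37887, 75263, 258999, 14335, 237502, 243519,
   100351, 252607, 150015, 228815, 195543, 163803, 23551, 249595, 260319, 166911, 257151,
   128999, 28159, 98285, 259439, 200191, 4095, 65526, 225273, 188410, 114684, 241533]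

def fin3c (v : ℕ) : Bool :=
  match (List.range 9).filter (tb v) with
  | [] => false
  | [_] => (List.range 9).any (fun b => tb v (Nat.add 9 b))
  | _ :: _ :: _ => true

end Pool.Agent.H33.AB
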