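import Pool.Agent.H33.AB.Comp

set_option autoImplicit false

namespace Pool.Agent.H33.AB

theorem dfs_ok : dfs 5 [] (List.range 36) = true := by
  decide +kernel

theorem tab_ok : ((List.range 256).all fun m => Nat.ble 5 (pop8 m) ||
    CKL.any (fun x => (List.range 36).all (fun c => !tb x c ||
      Nat.ble (pop8 (Nat.land m (cm c))) 2))) = true := by
  decide +kernel

theorem tab3_ok : ((List.range 128).all fun m => Nat.ble 5 (pop8 m) ||
    CK3.any (fun x => (List.range 18).all (fun c => !tb x c ||
      Nat.ble (pop8 (Nat.land m (cm3 c))) 2))) = true := by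
  decide +kernel

theorem chk3_ok : chk (fun _ => false) fin3c 4 CK3 262143 = true := by
  decide +kernel

end Pool.Agent.H33.AB
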