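import Pool.Agent.H33.AB.Comp

set_option autoImplicit false

namespace Pool.Agent.H33.AB

theorem chk_ok : chk big13 (fun v => big4 v || q v) 4 CKL (Nat.pred (Nat.pow 2 36)) = true := by
  decide +kernel

end Pool.Agent.H33.AB
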