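import Pool.Agent.H33.AB.Gadget

set_option autoImplicit false

open Finset

namespace Pool.Agent.H33.AB

/-- vertices of one gadget: three centres, four `L`-leaves, three `T`-leaves. -/
abbrev I := Fin 3 ⊕ (Fin 4 ⊕ Fin 3)

def hadj : I → I → Prop
  | Sum.inl a, Sum.inr (Sum.inl _) => a ≠ 2
  | Sum.inr (Sum.inl _), Sum.inl a => a ≠ 2
  | Sum.inl _, Sum.inr (Sum.inr _) => True
  | Sum.inr (Sum.inr _), Sum.inl _ => True
  | _, _ => False

/-- vertices adjacent to the extra vertex. -/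
def nearW : I → Prop
  | Sum.inl _ => True
  | Sum.inr (Sum.inl _) => True
  | Sum.inr (Sum.inr _) => False

abbrev V := Option ((Fin 6 × Fin 6) × I)

def adj : V → V → Prop
  | none, none => False
  | none, some x => nearW x.2
  | some x, none => nearW x.2
  | some x, some y => x.1 = y.1 ∧ hadj x.2 y.2

theorem hadj_symm : ∀ x y : I, hadj x y → hadj y x := by
  rintro (a | a | a) (b | b | b) h <;> simp_all [hadj]

theorem hadj_irrefl : ∀ x : I, ¬ hadj x x := by
  rintro (a | a | a) h <;> simp_all [hadj]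

def G : SimpleGraph V where
  Adj := adj
  symm := by
    constructor
    rintro (_ | x) (_ | y) h
    · exact h
    · exact h
    · exact h
    · exact ⟨h.1.symm, hadj_symm _ _ h.2⟩
  loopless := by
    constructor
    rintro (_ | x) h
    · exact h
    · exact hadj_irrefl _ h.2

/-- one copy, positive part. -/
theorem copyPos (D : Finset ℕ) (hD : D.card = 2) (M : I → Finset ℕ) (hM : ∀ i, (M i).card = 6) :
    ∃ C : I → Finset ℕ, (∀ i, C i ⊆ M i ∧ (C i).card = 2) ∧
      (∀ i j, hadj i j → Disjoint (C i) (C j)) ∧ (∀ i, nearW i → Disjoint D (C i)) := by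
  have sub4 : ∀ i, ∃ U, U ⊆ M i \ D ∧ U.card = 4 := by
    intro i
    have h : 4 ≤ (M i \ D).card := by
      have := le_card_sdiff D (M i)
      rw [hM i, hD] at this
      omega
    obtain ⟨U, hU, hU2⟩ := exists_subset_card_eq h
    exact ⟨U, hU, hU2⟩
  choose U hU hU4 using sub4
  obtain ⟨S1, hS1, S2, hS2, S3, hS3, c1, c2, c3, hL, hT⟩ :=
    core (A1 := U (Sum.inl 0)) (A2 := U (Sum.inl 1)) (A3 := U (Sum.inl 2))
      (L := fun i => U (Sum.inr (Sum.inl i))) (T := fun j => M (Sum.inr (Sum.inr j)))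
      (hU4 _) (hU4 _) (hU4 _) (fun i => hU4 _) (fun j => (hM _).le)
  have exL : ∀ i : Fin 4, ∃ W, W ⊆ U (Sum.inr (Sum.inl i)) \ (S1 ∪ S2) ∧ W.card = 2 := by
    intro i
    have h1 := card_sdiff_add_card_inter (U (Sum.inr (Sum.inl i))) (S1 ∪ S2)
    have h2 := hL i
    rw [hU4] at h1
    obtain ⟨W, hW, hW2⟩ := exists_subset_card_eq
      (show 2 ≤ (U (Sum.inr (Sum.inl i)) \ (S1 ∪ S2)).card by omega)
    exact ⟨W, hW, hW2⟩
  have exT : ∀ i : Fin 3, ∃ W, W ⊆ M (Sum.inr (Sum.inr i)) \ (S1 ∪ S2 ∪ S3) ∧ W.card = 2 := by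
    intro i
    have h1 := card_sdiff_add_card_inter (M (Sum.inr (Sum.inr i))) (S1 ∪ S2 ∪ S3)
    have h2 := hT i
    rw [hM] at h1
    obtain ⟨W, hW, hW2⟩ := exists_subset_card_eq
      (show 2 ≤ (M (Sum.inr (Sum.inr i)) \ (S1 ∪ S2 ∪ S3)).card by omega)
    exact ⟨W, hW, hW2⟩
  choose WL hWL hWL2 using exL
  choose WT hWT hWT2 using exT
  let CC : Fin 3 → Finset ℕ := ![S1, S2, S3]
  have hCC : ∀ a, CC a ⊆ U (Sum.inl a) := by
    intro a
    fin_cases a
    · exact hS1
    · exact hS2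
    · exact hS3
  have hCC2 : ∀ a, (CC a).card = 2 := by
    intro a
    fin_cases a
    · exact c1
    · exact c2
    · exact c3
  have dL : ∀ a : Fin 3, a ≠ 2 → ∀ i, Disjoint (CC a) (WL i) := by
    intro a ha i
    rw [disjoint_left]
    intro z hz hz2
    have h1 := (mem_sdiff.1 (hWL i hz2)).2
    apply h1
    rw [mem_union]
    fin_cases a
    · exact Or.inl hz
    · exact Or.inr hz
    · exact absurd rfl ha
  have dT : ∀ a : Fin 3, ∀ i, Disjoint (CC a) (WT i) := by
    intro a i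
    rw [disjoint_left]
    intro z hz hz2
    have h1 := (mem_sdiff.1 (hWT i hz2)).2
    apply h1
    rw [mem_union, mem_union]
    fin_cases a
    · exact Or.inl (Or.inl hz)
    · exact Or.inl (Or.inr hz)
    · exact Or.inr hz
  refine ⟨fun x => match x with
    | Sum.inl a => CC a
    | Sum.inr (Sum.inl i) => WL i
    | Sum.inr (Sum.inr j) => WT j, ?_, ?_, ?_⟩
  · rintro (a | i | j)
    · exact ⟨(hCC a).trans ((hU _).trans sdiff_subset), hCC2 a⟩
    · exact ⟨(hWL i).trans (sdiff_subset.trans ((hU _).trans sdiff_subset)), hWL2 i⟩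
    · exact ⟨(hWT j).trans sdiff_subset, hWT2 j⟩
  · rintro (a | a | a) (b | b | b) h
    · exact absurd h (by simp [hadj])
    · exact dL a h b
    · exact dT a b
    · exact (dL b h a).symm
    · exact absurd h (by simp [hadj])
    · exact absurd h (by simp [hadj])
    · exact (dT b a).symm
    · exact absurd h (by simp [hadj])
    · exact absurd h (by simp [hadj])
  · rintro (a | i | j) h
    · rw [disjoint_left]
      intro z hz hz2
      exact (mem_sdiff.1 (hU _ (hCC a hz2))).2 hz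
    · rw [disjoint_left]
      intro z hz hz2
      exact (mem_sdiff.1 (hU _ (mem_sdiff.1 (hWL i hz2)).1)).2 hz
    · exact absurd h (by simp [nearW])

theorem positive (L : V → Finset ℕ) (hL : ∀ v, (L v).card = 6) :
    ∃ C : V → Finset ℕ, (∀ v, C v ⊆ L v ∧ (C v).card = 2) ∧
      ∀ u v, G.Adj u v → Disjoint (C u) (C v) := by
  obtain ⟨D, hD, hD2⟩ := exists_subset_card_eq (show 2 ≤ (L none).card by rw [hL]; norm_num)
  choose C hC1 hC2 hC3 using fun P : Fin 6 × Fin 6 =>
    copyPos D hD2 (fun i => L (some (P, i))) (fun i => hL _)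
  refine ⟨fun v => match v with
    | none => D
    | some x => C x.1 x.2, ?_, ?_⟩
  · rintro (_ | x)
    · exact ⟨hD, hD2⟩
    · exact hC1 x.1 x.2
  · rintro (_ | ⟨P, x⟩) (_ | ⟨Q, y⟩) h
    · exact absurd h (by simp [G])
    · exact hC3 Q y h
    · exact (hC3 P x h).symm
    · have h1 : P = Q := h.1
      subst h1
      exact hC2 P x y h.2

/-! ### negative part -/

def bA (a : Fin 3) : Finset ℕ := {10 + 4 * a.val, 11 + 4 * a.val, 12 + 4 * a.val, 13 + 4 * a.val}

def bL : Fin 4 → Finset ℕ :=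
  ![{10, 12, 13, 14}, {11, 12, 13, 15}, {11, 14, 16, 17}, {10, 15, 16, 17}]

def bT : Fin 3 → Fin 2 → Finset ℕ :=
  ![![{10, 11, 14, 15, 18, 19}, {10, 11, 14, 15, 18, 19}],
    ![{12, 13, 16, 17, 18, 19}, {12, 13, 16, 17, 18, 19}],
    ![{10, 11, 14, 15, 20, 21}, {12, 13, 16, 17, 20, 21}]]

def DD (P : Fin 6 × Fin 6) : Finset ℕ := if P.1 = P.2 then {0, 1} else {P.1.val, P.2.val}

def lst : V × Fin 2 → Finset ℕ
  | (none, _) => {0, 1, 2, 3, 4, 5}
  | (some (P, Sum.inl a), _) => DD P ∪ bA a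
  | (some (P, Sum.inr (Sum.inl i)), _) => DD P ∪ bL i
  | (some (_, Sum.inr (Sum.inr j)), k) => bT j k

theorem lst_card1 : ∀ P : Fin 6 × Fin 6, ∀ a : Fin 3, (DD P ∪ bA a).card = 6 := by
  decide +kernel

theorem lst_card2 : ∀ P : Fin 6 × Fin 6, ∀ a : Fin 4, (DD P ∪ bL a).card = 6 := by
  decide +kernel

theorem lst_card3 : ∀ j k, (bT j k).card = 6 := by
  decide +kernel

theorem lst_card : ∀ x, (lst x).card = 6 := by
  rintro ⟨_ | ⟨P, a | i | j⟩, k⟩
  · show ({0, 1, 2, 3, 4, 5} : Finset ℕ).card = 6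
    decide
  · exact lst_card1 P a
  · exact lst_card2 P i
  · exact lst_card3 j k

theorem check : ∀ x0 ∈ bA 0, ∀ x1 ∈ bA 0, ∀ y0 ∈ bA 1, ∀ y1 ∈ bA 1, x0 ≠ x1 → y0 ≠ y1 →
    (∃ l, (bL l \ {x0, x1, y0, y1}).card ≤ 1) ∨ ∀ z0 ∈ bA 2, ∀ z1 ∈ bA 2, z0 ≠ z1 →
      (∃ j, bT j 0 = bT j 1 ∧ (bT j 0 \ {x0, x1, y0, y1, z0, z1}).card ≤ 1) ∨
      ∃ j k, (bT j k \ {x0, x1, y0, y1, z0, z1}).card = 0 := by
  decide +kernel

theorem negative : ¬ ∃ f : V × Fin 2 → ℕ, (∀ x, f x ∈ lst x) ∧
    ∀ x y, (G.Adj x.1 y.1 ∨ (x.1 = y.1 ∧ x.2 ≠ y.2)) → f x ≠ f y := by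
  rintro ⟨f, hf, hadj'⟩
  have h01 : (0 : Fin 2) ≠ 1 := by decide
  have hp : f (none, 0) < 6 := by
    have h1 : f (none, 0) ∈ ({0, 1, 2, 3, 4, 5} : Finset ℕ) := hf (none, 0)
    simp only [mem_insert, mem_singleton] at h1
    omega
  have hq : f (none, 1) < 6 := by
    have h1 : f (none, 1) ∈ ({0, 1, 2, 3, 4, 5} : Finset ℕ) := hf (none, 1)
    simp only [mem_insert, mem_singleton] at h1
    omega
  have hpq : f (none, 0) ≠ f (none, 1) := hadj' _ _ (Or.inr ⟨rfl, h01⟩)
  let P : Fin 6 × Fin 6 := (⟨f (none, 0), hp⟩, ⟨f (none, 1), hq⟩)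
  have hDD : DD P = {f (none, 0), f (none, 1)} := by
    unfold DD
    rw [if_neg]
    intro h
    exact hpq (congrArg Fin.val h)
  have near : ∀ x k, nearW x → f (some (P, x), k) ∉ DD P := by
    intro x k hx hmem
    rw [hDD, mem_insert, mem_singleton] at hmem
    rcases hmem with h | h
    · exact hadj' (some (P, x), k) (none, 0) (Or.inl hx) h
    · exact hadj' (some (P, x), k) (none, 1) (Or.inl hx) h
  have cA : ∀ a k, f (some (P, Sum.inl a), k) ∈ bA a := by
    intro a k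
    have h1 : f (some (P, Sum.inl a), k) ∈ DD P ∪ bA a := hf _
    rcases mem_union.1 h1 with h | h
    · exact absurd h (near _ _ trivial)
    · exact h
  have cL : ∀ i k, f (some (P, Sum.inr (Sum.inl i)), k) ∈ bL i := by
    intro a k
    have h1 : f (some (P, Sum.inr (Sum.inl a)), k) ∈ DD P ∪ bL a := hf _
    rcases mem_union.1 h1 with h | h
    · exact absurd h (near _ _ trivial)
    · exact h
  have cT : ∀ j k, f (some (P, Sum.inr (Sum.inr j)), k) ∈ bT j k := fun j k => hf _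
  have two : ∀ x, f (some (P, x), 0) ≠ f (some (P, x), 1) :=
    fun x => hadj' _ _ (Or.inr ⟨rfl, h01⟩)
  have ed : ∀ x y k l, hadj x y → f (some (P, x), k) ≠ f (some (P, y), l) :=
    fun x y k l h => hadj' _ _ (Or.inl ⟨rfl, h⟩)
  rcases check _ (cA 0 0) _ (cA 0 1) _ (cA 1 0) _ (cA 1 1) (two _) (two _) with ⟨l, hl⟩ | hz
  · have h1 : ({f (some (P, Sum.inr (Sum.inl l)), 0), f (some (P, Sum.inr (Sum.inl l)), 1)} :
        Finset ℕ) ⊆ bL l \ {f (some (P, Sum.inl 0), 0), f (some (P, Sum.inl 0), 1),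
          f (some (P, Sum.inl 1), 0), f (some (P, Sum.inl 1), 1)} := by
      have e0 : ∀ k m, f (some (P, Sum.inr (Sum.inl l)), k) ≠ f (some (P, Sum.inl 0), m) :=
        fun k m => ed _ _ k m (by simp [hadj])
      have e1 : ∀ k m, f (some (P, Sum.inr (Sum.inl l)), k) ≠ f (some (P, Sum.inl 1), m) :=
        fun k m => ed _ _ k m (by simp [hadj])
      intro z hz
      simp only [mem_insert, mem_singleton] at hz
      rcases hz with rfl | rfl
      · rw [mem_sdiff]
        refine ⟨cL l 0, ?_⟩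
        simp only [mem_insert, mem_singleton]
        rintro (h | h | h | h)
        · exact e0 _ _ h
        · exact e0 _ _ h
        · exact e1 _ _ h
        · exact e1 _ _ h
      · rw [mem_sdiff]
        refine ⟨cL l 1, ?_⟩
        simp only [mem_insert, mem_singleton]
        rintro (h | h | h | h)
        · exact e0 _ _ h
        · exact e0 _ _ h
        · exact e1 _ _ h
        · exact e1 _ _ h
    have h2 := card_le_card h1
    rw [card_pair (two _)] at h2
    omega
  · have avoid : ∀ j k, f (some (P, Sum.inr (Sum.inr j)), k) ∉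
        ({f (some (P, Sum.inl 0), 0), f (some (P, Sum.inl 0), 1),
          f (some (P, Sum.inl 1), 0), f (some (P, Sum.inl 1), 1),
          f (some (P, Sum.inl 2), 0), f (some (P, Sum.inl 2), 1)} : Finset ℕ) := by
      intro j k
      have e : ∀ a m, f (some (P, Sum.inr (Sum.inr j)), k) ≠ f (some (P, Sum.inl a), m) :=
        fun a m => ed _ _ k m trivial
      simp only [mem_insert, mem_singleton]
      rintro (h | h | h | h | h | h)
      · exact e _ _ h
      · exact e _ _ h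
      · exact e _ _ h
      · exact e _ _ h
      · exact e _ _ h
      · exact e _ _ h
    rcases hz _ (cA 2 0) _ (cA 2 1) (two _) with ⟨j, hj1, hj2⟩ | ⟨j, k, hjk⟩
    · have h1 : ({f (some (P, Sum.inr (Sum.inr j)), 0), f (some (P, Sum.inr (Sum.inr j)), 1)} :
          Finset ℕ) ⊆ bT j 0 \ {f (some (P, Sum.inl 0), 0), f (some (P, Sum.inl 0), 1),
          f (some (P, Sum.inl 1), 0), f (some (P, Sum.inl 1), 1),
          f (some (P, Sum.inl 2), 0), f (some (P, Sum.inl 2), 1)} := by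
        intro z hz
        simp only [mem_insert, mem_singleton] at hz
        rcases hz with rfl | rfl
        · exact mem_sdiff.2 ⟨cT j 0, avoid j 0⟩
        · rw [hj1]
          exact mem_sdiff.2 ⟨cT j 1, avoid j 1⟩
      have h2 := card_le_card h1
      rw [card_pair (two _)] at h2
      omega
    · rw [card_eq_zero] at hjk
      have h1 := mem_sdiff.2 ⟨cT j k, avoid j k⟩
      rw [hjk] at h1
      simp at h1

theorem main : ¬ (∀ (V : Type) [Fintype V] (G : SimpleGraph V) (a b : ℕ),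
      (∀ L : V → Finset ℕ, (∀ v, (L v).card = a) →
        ∃ C : V → Finset ℕ, (∀ v, C v ⊆ L v ∧ (C v).card = b) ∧
          ∀ u v, G.Adj u v → Disjoint (C u) (C v)) ↔
      (∀ L : V × Fin b → Finset ℕ, (∀ x, (L x).card = a) →
        ∃ f : V × Fin b → ℕ, (∀ x, f x ∈ L x) ∧
          ∀ x y, (G.Adj x.1 y.1 ∨ (x.1 = y.1 ∧ x.2 ≠ y.2)) → f x ≠ f y)) := by
  intro h
  exact negative ((h V G 6 2).1 positive lst lst_card)

end Pool.Agent.H33.AB
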