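import Pool.Agent.H33.AB.P

set_option autoImplicit false

open Finset

namespace Pool.Agent.H33.AB

section
variable {A : Finset ℕ} {T : Fin 3 → Finset ℕ}

/-- killing of a pair by a three-set. -/
theorem three_pair {s : Finset ℕ} (hs : s.card = 3) (hk : Killed A T s) {x y : ℕ} (hx : x ∈ A)
    (hy : y ∈ A) (hxy : x ≠ y) : ∃ j, s ⊆ T j ∧ x ∈ T j ∧ y ∈ T j ∧ x ∉ s := by
  obtain ⟨j, hj⟩ := hk.pair hx hy hxy
  have h1 : (s ∪ {x, y}).card ≤ 5 := by
    have h2 := card_union_le s {x, y}
    have h3 : ({x, y} : Finset ℕ).card ≤ 2 := card_le_two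
    omega
  have h2 : T j ∩ (s ∪ {x, y}) = s ∪ {x, y} :=
    eq_of_subset_of_card_le inter_subset_right (by omega)
  have h3 : s ∪ {x, y} ⊆ T j := by rw [← h2]; exact inter_subset_left
  refine ⟨j, fun z hz => h3 (mem_union_left _ hz), h3 (by simp), h3 (by simp), ?_⟩
  intro hxs
  have h4 : s ∪ {x, y} ⊆ insert y s := by
    intro z hz
    simp only [mem_union, mem_insert, mem_singleton] at hz ⊢
    rcases hz with h | rfl | rfl
    · exact Or.inr h
    · exact Or.inr hxs
    · exact Or.inl rfl
  have h5 := card_le_card h4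
  have h6 := card_insert_le y s
  have h7 := card_le_card (inter_subset_right : T j ∩ (s ∪ {x, y}) ⊆ _)
  omega

theorem three_disj {s : Finset ℕ} (hA : A.card = 4) (hs : s.card = 3) (hk : Killed A T s) :
    ∀ x ∈ A, x ∉ s := by
  intro x hx
  obtain ⟨y, hy⟩ : (A.erase x).Nonempty := by
    rw [← card_pos, card_erase_of_mem hx]; omega
  simp only [mem_erase] at hy
  obtain ⟨j, -, -, -, h⟩ := three_pair hs hk hx hy.2 (Ne.symm hy.1)
  exact h

theorem M0 {s : Finset ℕ} (hA : A.card = 4) (hT : ∀ j, (T j).card ≤ 6) (hs : s.card = 3)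
    (hk : Killed A T s) : ∀ j, s ⊆ T j := by
  have hd := three_disj hA hs hk
  have miss : ∀ j, s ⊆ T j → ∃ w ∈ A, w ∉ T j := by
    intro j hj
    by_contra hcon
    push Not at hcon
    have h1 : A ∪ s ⊆ T j := union_subset hcon hj
    have h2 := card_le_card h1
    rw [card_union_of_disjoint (disjoint_left.2 hd)] at h2
    have := hT j
    omega
  have miss' : ∀ j, ∃ w ∈ A, s ⊆ T j → w ∉ T j := by
    intro j
    by_cases h : s ⊆ T j
    · obtain ⟨w, hw, hn⟩ := miss j h
      exact ⟨w, hw, fun _ => hn⟩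
    · obtain ⟨w, hw⟩ : A.Nonempty := by rw [← card_pos]; omega
      exact ⟨w, hw, fun h2 => absurd h2 h⟩
  intro j
  by_contra hn
  have others : ∀ j : Fin 3, ∃ p q : Fin 3, p ≠ q ∧ p ≠ j ∧ q ≠ j := by decide
  obtain ⟨p, q, hpq, hpj, hqj⟩ := others j
  obtain ⟨w1, hw1, h1⟩ := miss' p
  obtain ⟨w2, hw2, h2⟩ := miss' q
  have key : ∀ x ∈ A, ∀ y ∈ A, x ≠ y → (s ⊆ T p ∧ x ∈ T p ∧ y ∈ T p) ∨
      (s ⊆ T q ∧ x ∈ T q ∧ y ∈ T q) := by
    intro x hx y hy hxy
    obtain ⟨l, hl1, hl2, hl3, -⟩ := three_pair hs hk hx hy hxy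
    rcases fin3 p q j l hpq hpj hqj with rfl | rfl | rfl
    · exact Or.inl ⟨hl1, hl2, hl3⟩
    · exact Or.inr ⟨hl1, hl2, hl3⟩
    · exact absurd hl1 hn
  by_cases hw : w1 = w2
  · subst hw
    obtain ⟨y, hy⟩ : (A.erase w1).Nonempty := by
      rw [← card_pos, card_erase_of_mem hw1]; omega
    simp only [mem_erase] at hy
    rcases key w1 hw1 y hy.2 (Ne.symm hy.1) with h | h
    · exact h1 h.1 h.2.1
    · exact h2 h.1 h.2.1
  · rcases key w1 hw1 w2 hw2 hw with h | h
    · exact h1 h.1 h.2.1
    · exact h2 h.1 h.2.2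

theorem count_pairs (hA : A.card = 4) {n : Fin 3 → ℕ} (hn : ∀ j, (T j ∩ A).card ≤ n j)
    (hc : (n 0).choose 2 + (n 1).choose 2 + (n 2).choose 2 < 6)
    (h : ∀ x ∈ A, ∀ y ∈ A, x ≠ y → ∃ j, x ∈ T j ∧ y ∈ T j) : False := by
  have h1 : powersetCard 2 A ⊆ powersetCard 2 (T 0 ∩ A) ∪ powersetCard 2 (T 1 ∩ A) ∪
      powersetCard 2 (T 2 ∩ A) := by
    intro P hP
    rw [mem_powersetCard] at hP
    obtain ⟨x, y, hxy, rfl⟩ := card_eq_two.1 hP.2
    have hx := hP.1 (show x ∈ ({x, y} : Finset ℕ) by simp)
    have hy := hP.1 (show y ∈ ({x, y} : Finset ℕ) by simp)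
    obtain ⟨j, h2, h3⟩ := h x hx y hy hxy
    have h4 : ({x, y} : Finset ℕ) ⊆ T j ∩ A := by
      intro z hz
      simp only [mem_insert, mem_singleton] at hz
      rcases hz with rfl | rfl
      · exact mem_inter.2 ⟨h2, hx⟩
      · exact mem_inter.2 ⟨h3, hy⟩
    simp only [mem_union, mem_powersetCard]
    have hj : j = 0 ∨ j = 1 ∨ j = 2 := fin3 0 1 2 j (by decide) (by decide) (by decide)
    rcases hj with rfl | rfl | rfl
    · exact Or.inl (Or.inl ⟨h4, hP.2⟩)
    · exact Or.inl (Or.inr ⟨h4, hP.2⟩)
    · exact Or.inr ⟨h4, hP.2⟩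
  have h2 := card_le_card h1
  have h3 := card_union_le (powersetCard 2 (T 0 ∩ A) ∪ powersetCard 2 (T 1 ∩ A))
    (powersetCard 2 (T 2 ∩ A))
  have h4 := card_union_le (powersetCard 2 (T 0 ∩ A)) (powersetCard 2 (T 1 ∩ A))
  simp only [card_powersetCard] at h2 h3 h4
  have h5 : ∀ j, (T j ∩ A).card.choose 2 ≤ (n j).choose 2 := fun j => Nat.choose_le_choose 2 (hn j)
  have h6 : A.card.choose 2 = 6 := by rw [hA]; rfl
  have := h5 0
  have := h5 1
  have := h5 2
  omega

theorem M1 {s s' : Finset ℕ} (hA : A.card = 4) (hT : ∀ j, (T j).card ≤ 6) (hs : s.card = 3)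
    (hs' : s'.card = 3) (hne : s ≠ s') (hk : Killed A T s) (hk' : Killed A T s') : False := by
  have h0 := M0 hA hT hs hk
  have h0' := M0 hA hT hs' hk'
  have hd := three_disj hA hs hk
  have hd' := three_disj hA hs' hk'
  have h1 : 4 ≤ (s ∪ s').card := by
    by_contra hcon
    have h2 : s = s ∪ s' := eq_of_subset_of_card_le subset_union_left (by omega)
    have h3 : s' = s ∪ s' := eq_of_subset_of_card_le subset_union_right (by omega)
    exact hne (h2.trans h3.symm)
  apply count_pairs (T := T) (n := fun _ => 2) hA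
  · intro j
    have h2 : (T j ∩ A) ∪ (s ∪ s') ⊆ T j :=
      union_subset inter_subset_left (union_subset (h0 j) (h0' j))
    have h3 := card_le_card h2
    rw [card_union_of_disjoint] at h3
    · have := hT j
      omega
    · rw [disjoint_left]
      intro z hz hz2
      rcases mem_union.1 hz2 with h | h
      · exact hd z (mem_inter.1 hz).2 h
      · exact hd' z (mem_inter.1 hz).2 h
  · decide
  · intro x hx y hy hxy
    obtain ⟨j, -, h2, h3, -⟩ := three_pair hs hk hx hy hxy
    exact ⟨j, h2, h3⟩

theorem M2 {s B : Finset ℕ} (hA : A.card = 4) (hT : ∀ j, (T j).card ≤ 6) (hs : s.card = 3)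
    (hB : B.card = 4) (hk : Killed A T s) (hkB : Killed A T B) {z : ℕ} (hz : z ∈ s)
    (hzB : z ∉ B) : False := by
  have h0 := M0 hA hT hs hk
  have hd := three_disj hA hs hk
  have hzA : z ∉ A := fun h => hd z h hz
  -- killing of a pair for `B`
  have key : ∀ x ∈ A, ∀ y ∈ A, x ≠ y → ∃ j, (T j).erase z ⊆ B ∪ {x, y} ∧ (T j).card = 6 := by
    intro x hx y hy hxy
    obtain ⟨j, hj⟩ := hkB.pair hx hy hxy
    have hzj : z ∈ T j := h0 j hz
    have h1 : T j ∩ (B ∪ {x, y}) ⊆ (T j).erase z := by
      intro w hw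
      rw [mem_erase]
      refine ⟨?_, (mem_inter.1 hw).1⟩
      rintro rfl
      simp only [mem_inter, mem_union, mem_insert, mem_singleton] at hw
      rcases hw.2 with h | rfl | rfl
      · exact hzB h
      · exact hzA hx
      · exact hzA hy
    have h2 := card_le_card h1
    have h3 : ((T j).erase z).card = (T j).card - 1 := card_erase_of_mem hzj
    have h4 := hT j
    have h5 : T j ∩ (B ∪ {x, y}) = (T j).erase z := eq_of_subset_of_card_le h1 (by omega)
    refine ⟨j, ?_, by omega⟩
    rw [← h5]; exact inter_subset_right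
  have hsB : s.erase z ⊆ B := by
    intro w hw
    obtain ⟨x, hx, y, hy, hxy⟩ := one_lt_card.1 (by omega : 1 < A.card)
    obtain ⟨j, hj, -⟩ := key x hx y hy hxy
    have h1 : w ∈ (T j).erase z := mem_erase.2 ⟨(mem_erase.1 hw).1, h0 j (mem_erase.1 hw).2⟩
    have h2 := hj h1
    simp only [mem_union, mem_insert, mem_singleton] at h2
    rcases h2 with h | rfl | rfl
    · exact h
    · exact absurd (mem_erase.1 hw).2 (hd _ hx)
    · exact absurd (mem_erase.1 hw).2 (hd _ hy)
  have hR : (B \ s).card = 2 := by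
    have h1 : B \ s = B \ s.erase z := by
      ext w
      simp only [mem_sdiff, mem_erase]
      constructor
      · rintro ⟨h1, h2⟩
        exact ⟨h1, fun h => h2 h.2⟩
      · rintro ⟨h1, h2⟩
        refine ⟨h1, fun h => h2 ⟨?_, h⟩⟩
        rintro rfl
        exact hzB h1
    rw [h1]
    have h2 := card_sdiff_add_card_eq_card hsB
    rw [card_erase_of_mem hz] at h2
    omega
  obtain ⟨p, q, hpq, hpqB⟩ := card_eq_two.1 hR
  have hmem : ∀ w, w ∈ B → w ∈ s ∨ w = p ∨ w = q := by
    intro w hw
    by_cases h : w ∈ s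
    · exact Or.inl h
    · right
      have : w ∈ B \ s := mem_sdiff.2 ⟨hw, h⟩
      rw [hpqB] at this
      simpa using this
  -- size of `T j \ s`
  have key2 : ∀ x ∈ A, ∀ y ∈ A, x ≠ y → ∃ j, T j \ s ⊆ {p, q, x, y} ∧ (T j \ s).card = 3 := by
    intro x hx y hy hxy
    obtain ⟨j, hj1, hj2⟩ := key x hx y hy hxy
    refine ⟨j, ?_, ?_⟩
    · intro w hw
      have h1 := mem_sdiff.1 hw
      have h2 : w ∈ (T j).erase z := mem_erase.2 ⟨fun h => h1.2 (h ▸ hz), h1.1⟩
      have h3 := hj1 h2
      simp only [mem_union, mem_insert, mem_singleton] at h3 ⊢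
      rcases h3 with h | h | h
      · rcases hmem w h with h4 | h4 | h4
        · exact absurd h4 h1.2
        · exact Or.inl h4
        · exact Or.inr (Or.inl h4)
      · exact Or.inr (Or.inr (Or.inl h))
      · exact Or.inr (Or.inr (Or.inr h))
    · have := card_sdiff_add_card_eq_card (h0 j)
      omega
  have TA : ∀ j, T j ∩ A ⊆ T j \ s := by
    intro j w hw
    exact mem_sdiff.2 ⟨(mem_inter.1 hw).1, hd w (mem_inter.1 hw).2⟩
  have TA3 : ∀ j, (T j ∩ A).card ≤ 3 := by
    intro j
    have h1 := card_le_card (TA j)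
    have h2 := card_sdiff_add_card_eq_card (h0 j)
    have := hT j
    omega
  have kk : ∀ x ∈ A, ∀ y ∈ A, x ≠ y → ∃ j, x ∈ T j ∧ y ∈ T j := by
    intro x hx y hy hxy
    obtain ⟨j, -, h2, h3, -⟩ := three_pair hs hk hx hy hxy
    exact ⟨j, h2, h3⟩
  -- one symmetric case: exactly one of `p, q` in `A`
  have one : ∀ p q : ℕ, p ≠ q → p ∈ A → q ∉ A →
      (∀ x ∈ A, ∀ y ∈ A, x ≠ y → ∃ j, T j \ s ⊆ {p, q, x, y} ∧ (T j \ s).card = 3) → False := by
    intro p q hpq hpA hqA key2
    have h3 : (A.erase p).card = 3 := by rw [card_erase_of_mem hpA]; omega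
    obtain ⟨e, f, g, hef, heg, hfg, h4⟩ := card_eq_three.1 h3
    have he : e ∈ A.erase p := by rw [h4]; simp
    have hf : f ∈ A.erase p := by rw [h4]; simp
    have hg : g ∈ A.erase p := by rw [h4]; simp
    simp only [mem_erase] at he hf hg
    have ex : ∀ y ∈ A, y ≠ p → ∃ j, T j \ s = {p, q, y} := by
      intro y hy hyp
      obtain ⟨j, h5, h6⟩ := key2 p hpA y hy (Ne.symm hyp)
      refine ⟨j, ?_⟩
      apply eq_of_subset_of_card_le
      · intro w hw
        have := h5 hw
        simp only [mem_insert, mem_singleton] at this ⊢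
        tauto
      · rw [h6]
        exact card_le_three
    obtain ⟨i, hi⟩ := ex e he.2 he.1
    obtain ⟨j, hj⟩ := ex f hf.2 hf.1
    obtain ⟨k, hk3⟩ := ex g hg.2 hg.1
    have hij : i ≠ j := by
      rintro rfl
      have : e ∈ T i \ s := by rw [hi]; simp
      rw [hj] at this
      simp only [mem_insert, mem_singleton] at this
      rcases this with h | h | h
      · exact he.1 h
      · exact hqA (h ▸ he.2)
      · exact hef h
    have hik : i ≠ k := by
      rintro rfl
      have : e ∈ T i \ s := by rw [hi]; simp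
      rw [hk3] at this
      simp only [mem_insert, mem_singleton] at this
      rcases this with h | h | h
      · exact he.1 h
      · exact hqA (h ▸ he.2)
      · exact heg h
    have hjk : j ≠ k := by
      rintro rfl
      have : f ∈ T j \ s := by rw [hj]; simp
      rw [hk3] at this
      simp only [mem_insert, mem_singleton] at this
      rcases this with h | h | h
      · exact hf.1 h
      · exact hqA (h ▸ hf.2)
      · exact hfg h
    obtain ⟨l, hl1, hl2⟩ := kk e he.2 f hf.2 hef
    have he' : e ∈ T l \ s := mem_sdiff.2 ⟨hl1, hd e he.2⟩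
    have hf' : f ∈ T l \ s := mem_sdiff.2 ⟨hl2, hd f hf.2⟩
    rcases fin3 i j k l hij hik hjk with rfl | rfl | rfl
    · rw [hi] at hf'
      simp only [mem_insert, mem_singleton] at hf'
      rcases hf' with h | h | h
      · exact hf.1 h
      · exact hqA (h ▸ hf.2)
      · exact hef h.symm
    · rw [hj] at he'
      simp only [mem_insert, mem_singleton] at he'
      rcases he' with h | h | h
      · exact he.1 h
      · exact hqA (h ▸ he.2)
      · exact hef h
    · rw [hk3] at he'
      simp only [mem_insert, mem_singleton] at he'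
      rcases he' with h | h | h
      · exact he.1 h
      · exact hqA (h ▸ he.2)
      · exact heg h
  by_cases hpA : p ∈ A
  · by_cases hqA : q ∈ A
    · obtain ⟨j, h1, h2⟩ := key2 p hpA q hqA hpq
      have h3 : T j \ s ⊆ {p, q} := by
        intro w hw
        have := h1 hw
        simp only [mem_insert, mem_singleton] at this ⊢
        tauto
      have h4 := card_le_card h3
      have h5 : ({p, q} : Finset ℕ).card ≤ 2 := card_le_two
      omega
    · exact one p q hpq hpA hqA key2
  · by_cases hqA : q ∈ A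
    · apply one q p (Ne.symm hpq) hqA hpA
      intro x hx y hy hxy
      obtain ⟨j, h1, h2⟩ := key2 x hx y hy hxy
      refine ⟨j, ?_, h2⟩
      intro w hw
      have := h1 hw
      simp only [mem_insert, mem_singleton] at this ⊢
      tauto
    · -- none
      have ne : ∀ x ∈ A, ∀ y ∈ A, x ≠ y → ∃ j, T j ∩ A ⊆ {x, y} ∧ (T j ∩ A).Nonempty := by
        intro x hx y hy hxy
        obtain ⟨j, h1, h2⟩ := key2 x hx y hy hxy
        refine ⟨j, ?_, ?_⟩
        · intro w hw
          have := h1 (TA j hw)
          simp only [mem_insert, mem_singleton] at this ⊢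
          rcases this with h | h | h | h
          · exact absurd (h ▸ (mem_inter.1 hw).2) hpA
          · exact absurd (h ▸ (mem_inter.1 hw).2) hqA
          · exact Or.inl h
          · exact Or.inr h
        · by_contra hcon
          rw [not_nonempty_iff_eq_empty] at hcon
          have h3 : T j \ s ⊆ {p, q} := by
            intro w hw
            have := h1 hw
            simp only [mem_insert, mem_singleton] at this ⊢
            rcases this with h | h | h | h
            · exact Or.inl h
            · exact Or.inr h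
            · exfalso
              have : w ∈ T j ∩ A := mem_inter.2 ⟨(mem_sdiff.1 hw).1, h ▸ hx⟩
              rw [hcon] at this
              simp at this
            · exfalso
              have : w ∈ T j ∩ A := mem_inter.2 ⟨(mem_sdiff.1 hw).1, h ▸ hy⟩
              rw [hcon] at this
              simp at this
          have h4 := card_le_card h3
          have h5 : ({p, q} : Finset ℕ).card ≤ 2 := card_le_two
          omega
      obtain ⟨a, ha, b, hb, hab⟩ := one_lt_card.1 (by omega : 1 < A.card)
      obtain ⟨i, hi1, hi2⟩ := ne a ha b hb hab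
      obtain ⟨c, hc⟩ := hi2
      obtain ⟨e, he, f, hf, hef⟩ := one_lt_card.1 (by
        rw [card_erase_of_mem (mem_inter.1 hc).2]; omega : 1 < (A.erase c).card)
      simp only [mem_erase] at he hf
      obtain ⟨j, hj1, -⟩ := ne e he.2 f hf.2 hef
      have hij : i ≠ j := by
        rintro rfl
        have := hj1 hc
        simp only [mem_insert, mem_singleton] at this
        rcases this with h | h
        · exact he.1 h.symm
        · exact hf.1 h.symm
      have ci : (T i ∩ A).card ≤ 2 := (card_le_card hi1).trans card_le_two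
      have cj : (T j ∩ A).card ≤ 2 := (card_le_card hj1).trans card_le_two
      apply count_pairs (T := T) (n := fun k => if k = i ∨ k = j then 2 else 3) hA
      · intro k
        by_cases hk' : k = i ∨ k = j
        · simp only [hk', if_true]
          rcases hk' with rfl | rfl <;> assumption
        · simp only [hk', if_false]
          exact TA3 k
      · revert hij
        clear * -
        revert i j
        decide
      · exact kk

end

end Pool.Agent.H33.AB
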