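import Pool.Agent.H33.AB.LPhase
import Pool.Agent.H33.AB.Three

set_option autoImplicit false

open Finset

namespace Pool.Agent.H33.AB

/-- positions of the bits of `m`. -/
def F (N m : ℕ) : Finset ℕ := (range N).filter (fun k => m.testBit k = true)

/-- colour set coded by `m`. -/
def S (φ : ℕ → ℕ) (N m : ℕ) : Finset ℕ := (F N m).image φ

theorem mem_F {N m k : ℕ} : k ∈ F N m ↔ k < N ∧ m.testBit k = true := by
  simp [F]

section
variable {φ : ℕ → ℕ} {N : ℕ} (hφ : ∀ a < N, ∀ b < N, φ a = φ b → a = b)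
include hφ

theorem S_inter (m m' : ℕ) : S φ N m ∩ S φ N m' = S φ N (Nat.land m m') := by
  have h0 : ∀ k, (Nat.land m m').testBit k = (m.testBit k && m'.testBit k) :=
    fun k => Nat.testBit_and m m' k
  ext z
  simp only [S, mem_inter, mem_image, mem_F, h0, Bool.and_eq_true]
  constructor
  · rintro ⟨⟨a, ⟨ha, ha2⟩, rfl⟩, b, ⟨hb, hb2⟩, hab⟩
    have := hφ b hb a ha hab
    subst this
    exact ⟨b, ⟨ha, ha2, hb2⟩, rfl⟩
  · rintro ⟨a, ⟨ha, h1, h2⟩, rfl⟩
    exact ⟨⟨a, ⟨ha, h1⟩, rfl⟩, a, ⟨ha, h2⟩, rfl⟩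

omit hφ in
theorem S_union (m m' : ℕ) : S φ N m ∪ S φ N m' = S φ N (Nat.lor m m') := by
  have h0 : ∀ k, (Nat.lor m m').testBit k = (m.testBit k || m'.testBit k) :=
    fun k => Nat.testBit_or m m' k
  ext z
  simp only [S, mem_union, mem_image, mem_F, h0, Bool.or_eq_true]
  constructor
  · rintro (⟨a, ⟨ha, ha2⟩, rfl⟩ | ⟨b, ⟨hb, hb2⟩, rfl⟩)
    · exact ⟨a, ⟨ha, Or.inl ha2⟩, rfl⟩
    · exact ⟨b, ⟨hb, Or.inr hb2⟩, rfl⟩
  · rintro ⟨a, ⟨ha, h1 | h1⟩, rfl⟩
    · exact Or.inl ⟨a, ⟨ha, h1⟩, rfl⟩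
    · exact Or.inr ⟨a, ⟨ha, h1⟩, rfl⟩

theorem S_card (m : ℕ) : (S φ N m).card = (F N m).card := by
  apply card_image_of_injOn
  intro a ha b hb hab
  rw [mem_coe, mem_F] at ha hb
  exact hφ a ha.1 b hb.1 hab

omit hφ in
theorem exists_mask (N : ℕ) (p : ℕ → Prop) : ∃ m < 2 ^ N, ∀ k < N, m.testBit k = true ↔ p k := by
  classical
  refine ⟨Nat.ofBits (fun i : Fin N => decide (p i)), Nat.ofBits_lt_two_pow _, ?_⟩
  intro k hk
  rw [Nat.testBit_ofBits_lt _ _ hk]
  simp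

theorem mask_of (L : Finset ℕ) : ∃ m < 2 ^ N, (∀ m', L ∩ S φ N m' = S φ N (Nat.land m m')) ∧
    (F N m).card ≤ L.card := by
  obtain ⟨m, hm, h⟩ := exists_mask N (fun k => φ k ∈ L)
  refine ⟨m, hm, ?_, ?_⟩
  · intro m'
    rw [← S_inter hφ]
    ext z
    simp only [mem_inter]
    constructor
    · rintro ⟨h1, h2⟩
      refine ⟨?_, h2⟩
      simp only [S, mem_image, mem_F] at h2 ⊢
      obtain ⟨a, ⟨ha, -⟩, rfl⟩ := h2
      exact ⟨a, ⟨ha, (h a ha).2 h1⟩, rfl⟩
    · rintro ⟨h1, h2⟩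
      refine ⟨?_, h2⟩
      simp only [S, mem_image, mem_F] at h1
      obtain ⟨a, ⟨ha, ha2⟩, rfl⟩ := h1
      exact (h a ha).1 ha2
  · rw [← S_card hφ]
    apply card_le_card
    intro z hz
    simp only [S, mem_image, mem_F] at hz
    obtain ⟨a, ⟨ha, ha2⟩, rfl⟩ := hz
    exact (h a ha).1 ha2

end

theorem pop8_eq8 : ∀ m < 256, pop8 m = (F 8 m).card := by decide +kernel

theorem pop8_eq7 : ∀ m < 128, pop8 m = (F 7 m).card := by decide +kernel

theorem cm_facts : ∀ c < 36, cm c < 256 ∧ pop8 (cm c) = 4 ∧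
    Nat.lor (Nat.land (cm c) 15) (Nat.land (cm c) 240) = cm c ∧
    pop8 (Nat.land (cm c) 15) = 2 ∧ pop8 (Nat.land (cm c) 240) = 2 := by decide +kernel

theorem cm_inj : ∀ c < 36, ∀ d < 36, c ≠ d → pop8 (Nat.land (cm c) (cm d)) ≤ 3 := by
  decide +kernel

theorem low_bits : ∀ c < 36, ∀ k < 8, (Nat.land (cm c) 15).testBit k = true → k < 4 := by
  decide +kernel

theorem high_bits : ∀ c < 36, ∀ k < 8, (Nat.land (cm c) 240).testBit k = true → 4 ≤ k := by
  decide +kernel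

theorem enum2 {P Q : Finset ℕ} {p q : ℕ} (hP : P.card = p) (hQ : Q.card = q)
    (hd : Disjoint P Q) : ∃ φ : ℕ → ℕ, (∀ a < p + q, ∀ b < p + q, φ a = φ b → a = b) ∧
      (∀ k < p, φ k ∈ P) ∧ (∀ k < q, φ (p + k) ∈ Q) := by
  let e := P.orderEmbOfFin hP
  let f := Q.orderEmbOfFin hQ
  let φ : ℕ → ℕ := fun k => if h : k < p then e ⟨k, h⟩ else
    if h' : k - p < q then f ⟨k - p, h'⟩ else 0
  have h1 : ∀ k (h : k < p), φ k = e ⟨k, h⟩ := fun k h => dif_pos h
  have h2 : ∀ k (h : ¬ k < p) (h' : k - p < q), φ k = f ⟨k - p, h'⟩ := by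
    intro k h h'
    show (if h : k < p then _ else _) = _
    rw [dif_neg h, dif_pos h']
  have m1 : ∀ k < p, φ k ∈ P := by
    intro k hk
    rw [h1 k hk]
    exact P.orderEmbOfFin_mem hP _
  have m2 : ∀ k, ¬ k < p → k - p < q → φ k ∈ Q := by
    intro k hk hk'
    rw [h2 k hk hk']
    exact Q.orderEmbOfFin_mem hQ _
  refine ⟨φ, ?_, m1, ?_⟩
  · intro a ha b hb hab
    by_cases ha' : a < p
    · by_cases hb' : b < p
      · rw [h1 a ha', h1 b hb'] at hab
        have := e.injective hab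
        simpa using this
      · exfalso
        have h3 := m1 a ha'
        have h4 := m2 b hb' (by omega)
        rw [hab] at h3
        exact disjoint_left.1 hd h3 h4
    · by_cases hb' : b < p
      · exfalso
        have h3 := m1 b hb'
        have h4 := m2 a ha' (by omega)
        rw [hab] at h4
        exact disjoint_left.1 hd h3 h4
      · rw [h2 a ha' (by omega), h2 b hb' (by omega)] at hab
        have := f.injective hab
        simp only [Fin.mk.injEq] at this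
        omega
  · intro k hk
    exact m2 (p + k) (by omega) (by omega)

section
variable {A1 A2 A3 : Finset ℕ} {L : Fin 4 → Finset ℕ} {T : Fin 3 → Finset ℕ}

/-- the disjoint case. -/
theorem core0 (h1 : A1.card = 4) (h2 : A2.card = 4) (h3 : A3.card = 4)
    (hL : ∀ i, (L i).card = 4) (hT : ∀ j, (T j).card ≤ 6) (hd : Disjoint A1 A2)
    (hcell : ∀ S1 ⊆ A1, ∀ S2 ⊆ A2, S1.card = 2 → S2.card = 2 →
      (∃ i, 3 ≤ (L i ∩ (S1 ∪ S2)).card) ∨ Killed A3 T (S1 ∪ S2)) : False := by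
  obtain ⟨φ, hφ, hφ1, hφ2⟩ := enum2 h1 h2 hd
  have hφ : ∀ a < 8, ∀ b < 8, φ a = φ b → a = b := hφ
  choose m hm hmi hmc using fun i => mask_of hφ (L i)
  have land_lt : ∀ a b : ℕ, a < 256 → Nat.land a b < 256 :=
    fun a b h => lt_of_le_of_lt Nat.and_le_left h
  have cardS : ∀ m < 256, (S φ 8 m).card = pop8 m := fun m hm => by
    rw [S_card hφ, pop8_eq8 m hm]
  have cellcard : ∀ c < 36, (S φ 8 (cm c)).card = 4 := fun c hc => by
    rw [cardS _ (cm_facts c hc).1]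
    exact (cm_facts c hc).2.1
  have intercard : ∀ c < 36, ∀ d, (S φ 8 (cm c) ∩ S φ 8 (cm d)).card =
      pop8 (Nat.land (cm c) (cm d)) := fun c hc d => by
    rw [S_inter hφ, cardS _ (land_lt _ _ (cm_facts c hc).1)]
  have neS : ∀ c < 36, ∀ d < 36, c ≠ d → S φ 8 (cm c) ≠ S φ 8 (cm d) := by
    intro c hc d hd hcd heq
    have h4 := intercard c hc d
    rw [← heq, inter_self, cellcard c hc] at h4
    have := cm_inj c hc d hd hcd
    omega
  apply Lphase (K := fun c => Killed A3 T (S φ 8 (cm c))) _ m hm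
  · intro i
    rw [pop8_eq8 _ (hm i)]
    have := hmc i
    rw [hL i] at this
    exact this
  · intro c hc
    obtain ⟨f1, f2, f3, f4, f5⟩ := cm_facts c hc
    have hu : S φ 8 (Nat.land (cm c) 15) ∪ S φ 8 (Nat.land (cm c) 240) = S φ 8 (cm c) := by
      rw [S_union, f3]
    have hc1 : S φ 8 (Nat.land (cm c) 15) ⊆ A1 := by
      intro z hz
      simp only [S, mem_image, mem_F] at hz
      obtain ⟨a, ⟨ha, ha2⟩, rfl⟩ := hz
      exact hφ1 a (low_bits c hc a ha ha2)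
    have hc2 : S φ 8 (Nat.land (cm c) 240) ⊆ A2 := by
      intro z hz
      simp only [S, mem_image, mem_F] at hz
      obtain ⟨a, ⟨ha, ha2⟩, rfl⟩ := hz
      have h4 := high_bits c hc a ha ha2
      have h5 := hφ2 (a - 4) (by omega)
      rwa [show 4 + (a - 4) = a by omega] at h5
    rcases hcell _ hc1 _ hc2 (by rw [cardS _ (land_lt _ _ f1)]; exact f4)
      (by rw [cardS _ (land_lt _ _ f1)]; exact f5) with ⟨i, hi⟩ | hk
    · right
      refine ⟨i, ?_⟩
      rw [hu, hmi i, cardS _ (land_lt _ _ (hm i))] at hi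
      exact hi
    · left
      rw [hu] at hk
      exact hk
  · constructor
    · intro a c ha hc hka hkc hfar
      unfold far at hfar
      rw [Nat.ble_eq, ← intercard a ha] at hfar
      have := (N2 h3 hT (cellcard a ha) (cellcard c hc) hka hkc (by omega)).1
      omega
    · intro x y z hx hy hz hkx hky hkz hxy h4 h5
      unfold non at h4 h5
      rw [Nat.ble_eq, ← intercard x hx] at h4
      rw [Nat.ble_eq, ← intercard y hy] at h5
      exact P2 h3 hT (cellcard x hx) (cellcard y hy) (cellcard z hz) hkx hky hkz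
        (neS x hx y hy hxy) h4 h5
    · intro a b c d ha hb hc hd hka hkb hkc hkd hab hac had hbc hbd hcd h4 h5 h6
      unfold non at h4 h5
      rw [Nat.ble_eq, ← intercard a ha] at h4
      rw [Nat.ble_eq, ← intercard b hb] at h5
      exact P3 h3 hT (cellcard a ha) (cellcard c hc) (cellcard b hb) (cellcard d hd)
        hka hkc hkb hkd h4 h5 (by rw [S_union, S_union, h6]) (neS a ha c hc hac)
        (neS a ha b hb hab) (neS a ha d hd had) (neS c hc b hb (Ne.symm hbc))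
        (neS c hc d hd hcd) (neS b hb d hd hbd)

theorem cm3_facts : ∀ c < 9, cm3 c < 128 ∧ pop8 (cm3 c) = 3 ∧ (cm3 c).testBit 0 = true ∧
    Nat.lor (Nat.land (cm3 c) 15) (Nat.land (cm3 c) 113) = cm3 c ∧
    pop8 (Nat.land (cm3 c) 15) = 2 ∧ pop8 (Nat.land (cm3 c) 113) = 2 := by decide +kernel

theorem cm3_facts' : ∀ c < 9, cm3 (9 + c) < 128 ∧ pop8 (cm3 (9 + c)) = 4 ∧
    (cm3 (9 + c)).testBit 0 = false ∧
    Nat.lor (Nat.land (cm3 (9 + c)) 15) (Nat.land (cm3 (9 + c)) 113) = cm3 (9 + c) ∧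
    pop8 (Nat.land (cm3 (9 + c)) 15) = 2 ∧ pop8 (Nat.land (cm3 (9 + c)) 113) = 2 := by
  decide +kernel

theorem cm3_inj : ∀ c < 9, ∀ d < 9, c ≠ d → pop8 (Nat.land (cm3 c) (cm3 d)) ≤ 2 := by
  decide +kernel

theorem low_bits3 : ∀ c < 18, ∀ k < 7, (Nat.land (cm3 c) 15).testBit k = true → k < 4 := by
  decide +kernel

theorem high_bits3 : ∀ c < 18, ∀ k < 7, (Nat.land (cm3 c) 113).testBit k = true →
    k = 0 ∨ 4 ≤ k := by
  decide +kernel

/-- the case of one common colour. -/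
theorem core1 (h1 : A1.card = 4) (h2 : A2.card = 4) (h3 : A3.card = 4)
    (hL : ∀ i, (L i).card = 4) (hT : ∀ j, (T j).card ≤ 6) (hd : (A1 ∩ A2).card = 1)
    (hcell : ∀ S1 ⊆ A1, ∀ S2 ⊆ A2, S1.card = 2 → S2.card = 2 →
      (∃ i, 3 ≤ (L i ∩ (S1 ∪ S2)).card) ∨ Killed A3 T (S1 ∪ S2)) : False := by
  obtain ⟨z, hz⟩ := card_eq_one.1 hd
  have hz12 : z ∈ A1 ∩ A2 := by rw [hz]; simp
  have hzA1 := (mem_inter.1 hz12).1
  have hzA2 := (mem_inter.1 hz12).2
  have hX : (A1.erase z).card = 3 := by rw [card_erase_of_mem hzA1]; omega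
  have hY : (A2.erase z).card = 3 := by rw [card_erase_of_mem hzA2]; omega
  have hXY : Disjoint (A1.erase z) (A2.erase z) := by
    rw [disjoint_left]
    intro w hw hw2
    rw [mem_erase] at hw hw2
    have : w ∈ A1 ∩ A2 := mem_inter.2 ⟨hw.2, hw2.2⟩
    rw [hz, mem_singleton] at this
    exact hw.1 this
  obtain ⟨ψ, hψ, hψ1, hψ2⟩ := enum2 hX hY hXY
  obtain ⟨φ, hφ, hφz, hφ1, hφ2⟩ : ∃ φ : ℕ → ℕ, (∀ a < 7, ∀ b < 7, φ a = φ b → a = b) ∧
      φ 0 = z ∧ (∀ k < 4, φ k ∈ A1) ∧ (∀ k < 7, k = 0 ∨ 4 ≤ k → φ k ∈ A2) := by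
    have nz : ∀ k < 6, ψ k ≠ z := by
      intro k hk
      by_cases hk3 : k < 3
      · exact (mem_erase.1 (hψ1 k hk3)).1
      · have := hψ2 (k - 3) (by omega)
        rw [show 3 + (k - 3) = k by omega] at this
        exact (mem_erase.1 this).1
    refine ⟨fun k => if k = 0 then z else ψ (k - 1), ?_, by simp, ?_, ?_⟩
    · intro a ha b hb hab
      by_cases ha0 : a = 0
      · by_cases hb0 : b = 0
        · rw [ha0, hb0]
        · simp only [ha0, hb0, if_true, if_false] at hab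
          exact absurd hab.symm (nz (b - 1) (by omega))
      · by_cases hb0 : b = 0
        · simp only [ha0, hb0, if_true, if_false] at hab
          exact absurd hab (nz (a - 1) (by omega))
        · simp only [ha0, hb0, if_false] at hab
          have := hψ (a - 1) (by omega) (b - 1) (by omega) hab
          omega
    · intro k hk
      by_cases hk0 : k = 0
      · simp only [hk0, if_true]; exact hzA1
      · simp only [hk0, if_false]
        exact (mem_erase.1 (hψ1 (k - 1) (by omega))).2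
    · intro k hk hk2
      by_cases hk0 : k = 0
      · simp only [hk0, if_true]; exact hzA2
      · simp only [hk0, if_false]
        have := hψ2 (k - 4) (by omega)
        rw [show 3 + (k - 4) = k - 1 by omega] at this
        exact (mem_erase.1 this).2
  choose m hm hmi hmc using fun i => mask_of hφ (L i)
  have land_lt : ∀ a b : ℕ, a < 128 → Nat.land a b < 128 :=
    fun a b h => lt_of_le_of_lt Nat.and_le_left h
  have cardS : ∀ m < 128, (S φ 7 m).card = pop8 m := fun m hm => by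
    rw [S_card hφ, pop8_eq7 m hm]
  have zmem : ∀ m, z ∈ S φ 7 m ↔ m.testBit 0 = true := by
    intro m
    simp only [S, mem_image, mem_F]
    constructor
    · rintro ⟨a, ⟨ha, ha2⟩, h⟩
      rw [← hφz] at h
      have := hφ a ha 0 (by norm_num) h
      rw [← this]; exact ha2
    · intro h
      exact ⟨0, ⟨by norm_num, h⟩, hφz⟩
  have main : ∀ c < 18, cm3 c < 128 →
      Nat.lor (Nat.land (cm3 c) 15) (Nat.land (cm3 c) 113) = cm3 c →
      pop8 (Nat.land (cm3 c) 15) = 2 → pop8 (Nat.land (cm3 c) 113) = 2 →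
      Killed A3 T (S φ 7 (cm3 c)) ∨ ∃ i, 3 ≤ pop8 (Nat.land (m i) (cm3 c)) := by
    intro c hc f1 f3 f4 f5
    have hu : S φ 7 (Nat.land (cm3 c) 15) ∪ S φ 7 (Nat.land (cm3 c) 113) = S φ 7 (cm3 c) := by
      rw [S_union, f3]
    have hc1 : S φ 7 (Nat.land (cm3 c) 15) ⊆ A1 := by
      intro z hz
      simp only [S, mem_image, mem_F] at hz
      obtain ⟨a, ⟨ha, ha2⟩, rfl⟩ := hz
      exact hφ1 a (low_bits3 c hc a ha ha2)
    have hc2 : S φ 7 (Nat.land (cm3 c) 113) ⊆ A2 := by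
      intro z hz
      simp only [S, mem_image, mem_F] at hz
      obtain ⟨a, ⟨ha, ha2⟩, rfl⟩ := hz
      exact hφ2 a ha (high_bits3 c hc a ha ha2)
    rcases hcell _ hc1 _ hc2 (by rw [cardS _ (land_lt _ _ f1)]; exact f4)
      (by rw [cardS _ (land_lt _ _ f1)]; exact f5) with ⟨i, hi⟩ | hk
    · right
      refine ⟨i, ?_⟩
      rw [hu, hmi i, cardS _ (land_lt _ _ (hm i))] at hi
      exact hi
    · left
      rw [hu] at hk
      exact hk
  have hres := Lphase3 (K := fun c => Killed A3 T (S φ 7 (cm3 c))) m hm (by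
    intro i
    rw [pop8_eq7 _ (hm i)]
    have := hmc i
    rw [hL i] at this
    exact this) (by
    intro c hc
    by_cases hc9 : c < 9
    · obtain ⟨f1, f2, f6, f3, f4, f5⟩ := cm3_facts c hc9
      exact main c hc f1 f3 f4 f5
    · obtain ⟨f1, f2, f6, f3, f4, f5⟩ := cm3_facts' (c - 9) (by omega)
      rw [show 9 + (c - 9) = c by omega] at f1 f3 f4 f5
      exact main c hc f1 f3 f4 f5)
  rcases hres with ⟨a, b, ha, hb, hab, hka, hkb⟩ | ⟨a, b, ha, hb, hka, hkb⟩
  · obtain ⟨f1, f2, -⟩ := cm3_facts a ha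
    obtain ⟨g1, g2, -⟩ := cm3_facts b hb
    have ca : (S φ 7 (cm3 a)).card = 3 := by rw [cardS _ f1, f2]
    have cb : (S φ 7 (cm3 b)).card = 3 := by rw [cardS _ g1, g2]
    refine M1 h3 hT ca cb ?_ hka hkb
    intro heq
    have h4 : (S φ 7 (cm3 a) ∩ S φ 7 (cm3 b)).card = pop8 (Nat.land (cm3 a) (cm3 b)) := by
      rw [S_inter hφ, cardS _ (land_lt _ _ f1)]
    rw [← heq, inter_self, ca] at h4
    have := cm3_inj a ha b hb hab
    omega
  · obtain ⟨f1, f2, f3, -⟩ := cm3_facts a ha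
    obtain ⟨g1, g2, g3, -⟩ := cm3_facts' b hb
    have ca : (S φ 7 (cm3 a)).card = 3 := by rw [cardS _ f1, f2]
    have cb : (S φ 7 (cm3 (9 + b))).card = 4 := by rw [cardS _ g1, g2]
    exact M2 h3 hT ca cb hka hkb ((zmem _).2 f3) (fun h => by
      rw [zmem, g3] at h
      simp at h)

/-- The gadget lemma. -/
theorem core (h1 : A1.card = 4) (h2 : A2.card = 4) (h3 : A3.card = 4)
    (hL : ∀ i, (L i).card = 4) (hT : ∀ j, (T j).card ≤ 6) :
    ∃ S1 ⊆ A1, ∃ S2 ⊆ A2, ∃ S3 ⊆ A3, S1.card = 2 ∧ S2.card = 2 ∧ S3.card = 2 ∧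
      (∀ i, (L i ∩ (S1 ∪ S2)).card ≤ 2) ∧ ∀ j, (T j ∩ (S1 ∪ S2 ∪ S3)).card ≤ 4 := by
  by_contra hcon
  have hcell : ∀ S1 ⊆ A1, ∀ S2 ⊆ A2, S1.card = 2 → S2.card = 2 →
      (∃ i, 3 ≤ (L i ∩ (S1 ∪ S2)).card) ∨ Killed A3 T (S1 ∪ S2) := by
    intro S1 hS1 S2 hS2 c1 c2
    by_contra hcon2
    push Not at hcon2
    obtain ⟨h4, h5⟩ := hcon2
    unfold Killed at h5
    push Not at h5
    obtain ⟨S3, hS3, c3, h6⟩ := h5
    exact hcon ⟨S1, hS1, S2, hS2, S3, hS3, c1, c2, c3, fun i => by have := h4 i; omega,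
      fun j => by have := h6 j; omega⟩
  by_cases hd : 2 ≤ (A1 ∩ A2).card
  · obtain ⟨U, hU, hU2⟩ := exists_subset_card_eq hd
    obtain ⟨W, hW, hW2⟩ := exists_subset_card_eq (show 2 ≤ A3.card by omega)
    rcases hcell U (hU.trans inter_subset_left) U (hU.trans inter_subset_right) hU2 hU2
      with ⟨i, hi⟩ | hk
    · rw [union_self] at hi
      have := card_le_card (inter_subset_right : L i ∩ U ⊆ U)
      omega
    · rw [union_self] at hk
      obtain ⟨j, hj⟩ := hk W hW hW2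
      have h4 := card_le_card (inter_subset_right : T j ∩ (U ∪ W) ⊆ U ∪ W)
      have h5 := card_union_le U W
      omega
  · by_cases hd1 : (A1 ∩ A2).card = 1
    · exact core1 h1 h2 h3 hL hT hd1 hcell
    · have : A1 ∩ A2 = ∅ := by
        rw [← card_eq_zero]; omega
      exact core0 h1 h2 h3 hL hT (disjoint_iff_inter_eq_empty.2 this) hcell

end

end Pool.Agent.H33.AB
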