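import Mathlib

set_option autoImplicit false

open Finset

namespace Pool.Agent.H33.AB

/-- `s` is killed: every pair `S` of colours of `A` is bad together with `s` for one of the three
lists `T j`. -/
def Killed (A : Finset ℕ) (T : Fin 3 → Finset ℕ) (s : Finset ℕ) : Prop :=
  ∀ S ⊆ A, S.card = 2 → ∃ j, 5 ≤ (T j ∩ (s ∪ S)).card

theorem fin3 (a b c j : Fin 3) (h1 : a ≠ b) (h2 : a ≠ c) (h3 : b ≠ c) : j = a ∨ j = b ∨ j = c := by
  revert a b c j; decide

section
variable {A : Finset ℕ} {T : Fin 3 → Finset ℕ}

theorem Killed.pair {s : Finset ℕ} (hk : Killed A T s) {x y : ℕ} (hx : x ∈ A) (hy : y ∈ A)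
    (hxy : x ≠ y) : ∃ j, 5 ≤ (T j ∩ (s ∪ {x, y})).card := by
  apply hk
  · intro z hz
    simp only [mem_insert, mem_singleton] at hz
    rcases hz with rfl | rfl <;> assumption
  · exact card_pair hxy

/-- at most one colour of `A` lies in a killed set. -/
theorem Killed.uniq {s : Finset ℕ} (hk : Killed A T s) (hs : s.card ≤ 4) {x y : ℕ} (hx : x ∈ A)
    (hy : y ∈ A) (hxs : x ∈ s) (hys : y ∈ s) : x = y := by
  by_contra hxy
  obtain ⟨j, hj⟩ := hk.pair hx hy hxy
  have : T j ∩ (s ∪ {x, y}) ⊆ s := by
    intro z hz
    simp only [mem_inter, mem_union, mem_insert, mem_singleton] at hz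
    rcases hz.2 with h | rfl | rfl <;> assumption
  have := card_le_card this
  omega

/-- if `x ∈ A ∩ s` then every other colour of `A` is covered by some `T j ⊇ s`. -/
theorem Killed.cover {s : Finset ℕ} (hk : Killed A T s) (hs : s.card = 4) {x e : ℕ} (hx : x ∈ A)
    (he : e ∈ A) (hxs : x ∈ s) (hxe : e ≠ x) : ∃ j, s ⊆ T j ∧ e ∈ T j := by
  obtain ⟨j, hj⟩ := hk.pair hx he (Ne.symm hxe)
  have h1 : s ∪ {x, e} = insert e s := by
    ext z
    simp only [mem_union, mem_insert, mem_singleton]
    constructor
    · rintro (h | rfl | rfl)
      · exact Or.inr h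
      · exact Or.inr hxs
      · exact Or.inl rfl
    · rintro (rfl | h)
      · exact Or.inr (Or.inr rfl)
      · exact Or.inl h
  rw [h1] at hj
  have h2 : (insert e s).card ≤ 5 := by
    have := card_insert_le e s
    omega
  have h3 : T j ∩ insert e s = insert e s := by
    apply eq_of_subset_of_card_le inter_subset_right
    omega
  have h4 : insert e s ⊆ T j := by
    rw [← h3]; exact inter_subset_left
  exact ⟨j, fun z hz => h4 (mem_insert_of_mem hz), h4 (mem_insert_self e s)⟩

/-- basic count: `T` contains `s` and only two further elements. -/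
theorem card_sdiff_le {s t : Finset ℕ} (hs : s.card = 4) (ht : t.card ≤ 6) (hst : s ⊆ t) :
    (t \ s).card ≤ 2 := by
  have := card_sdiff_add_card_eq_card hst
  omega

/-- key fact: a `T j` containing `s` cannot kill `(s', S)` for `S` disjoint from `s`. -/
theorem no_kill {s s' t S : Finset ℕ} (hs : s.card = 4) (ht : t.card ≤ 6) (hst : s ⊆ t)
    (hss : (s ∩ s').card ≤ 2) (hd : ∀ z ∈ S, z ∉ s) : (t ∩ (s' ∪ S)).card ≤ 4 := by
  have h1 : t ∩ (s' ∪ S) ⊆ (s ∩ s') ∪ (t \ s) := by
    intro z hz
    simp only [mem_inter, mem_union, mem_sdiff] at hz ⊢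
    by_cases hzs : z ∈ s
    · left
      refine ⟨hzs, ?_⟩
      rcases hz.2 with h | h
      · exact h
      · exact absurd hzs (hd z h)
    · right
      exact ⟨hz.1, hzs⟩
  have h2 := card_le_card h1
  have h3 := card_union_le (s ∩ s') (t \ s)
  have h4 := card_sdiff_le hs ht hst
  omega

theorem both_eq {s s' t : Finset ℕ} (hs : s.card = 4) (hs' : s'.card = 4) (ht : t.card ≤ 6)
    (hst : s ⊆ t) (hst' : s' ⊆ t) (hss : (s ∩ s').card ≤ 2) :
    t = s ∪ s' ∧ (s ∩ s').card = 2 := by
  have h1 : (s ∪ s').card + (s ∩ s').card = 8 := by
    rw [card_union_add_card_inter]; omega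
  have h2 : s ∪ s' ⊆ t := union_subset hst hst'
  have h3 := card_le_card h2
  refine ⟨?_, by omega⟩
  symm
  apply eq_of_subset_of_card_le h2
  omega

/-- no single `T` kills all `(s, S)`. -/
theorem single {s t : Finset ℕ} (hA : A.card = 4) (hs : s.card = 4) (ht : t.card ≤ 6) :
    ∃ x ∈ A, ∃ y ∈ A, x ≠ y ∧ (t ∩ (s ∪ {x, y})).card ≤ 4 := by
  by_contra hcon
  push Not at hcon
  by_cases hx : ∃ x ∈ A, x ∈ s
  · obtain ⟨x, hxA, hxs⟩ := hx
    -- all of A \ {x} and s in t
    have h1 : s ∪ A ⊆ t := by
      have key : ∀ y ∈ A, y ≠ x → s ⊆ t ∧ y ∈ t ∧ y ∉ s := by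
        intro y hy hyx
        have h5 := hcon x hxA y hy (Ne.symm hyx)
        have h6 : s ∪ {x, y} = insert y s := by
          ext z
          simp only [mem_union, mem_insert, mem_singleton]
          constructor
          · rintro (h | rfl | rfl)
            · exact Or.inr h
            · exact Or.inr hxs
            · exact Or.inl rfl
          · rintro (rfl | h)
            · exact Or.inr (Or.inr rfl)
            · exact Or.inl h
        rw [h6] at h5
        have h7 : (insert y s).card ≤ 5 := by
          have := card_insert_le y s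
          omega
        have h8 : t ∩ insert y s = insert y s := by
          apply eq_of_subset_of_card_le inter_subset_right
          omega
        have h9 : insert y s ⊆ t := by
          rw [← h8]; exact inter_subset_left
        refine ⟨fun z hz => h9 (mem_insert_of_mem hz), h9 (mem_insert_self y s), ?_⟩
        intro hys
        have h10 : insert y s = s := insert_eq_of_mem hys
        rw [h10] at h5
        have := card_le_card (inter_subset_right : t ∩ s ⊆ s)
        omega
      have h2 : ∃ y ∈ A, y ≠ x := by
        by_contra h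
        push Not at h
        have : A ⊆ {x} := fun z hz => by simp [h z hz]
        have := card_le_card this
        simp at this
        omega
      obtain ⟨y, hy, hyx⟩ := h2
      have hst := (key y hy hyx).1
      intro z hz
      rcases mem_union.1 hz with h | h
      · exact hst h
      · by_cases hzx : z = x
        · rw [hzx]; exact hst hxs
        · exact (key z h hzx).2.1
    have h2 : A ∩ s ⊆ {x} := by
      intro z hz
      simp only [mem_inter] at hz
      by_contra hne
      simp only [mem_singleton] at hne
      have h5 := hcon x hxA z hz.1 (Ne.symm hne)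
      have h6 : t ∩ (s ∪ {x, z}) ⊆ s := by
        intro w hw
        simp only [mem_inter, mem_union, mem_insert, mem_singleton] at hw
        rcases hw.2 with h | rfl | rfl
        · exact h
        · exact hxs
        · exact hz.2
      have := card_le_card h6
      omega
    have h3 := card_le_card h1
    have h4 := card_le_card h2
    have h5 : (s ∪ A).card + (s ∩ A).card = 8 := by
      rw [card_union_add_card_inter]; omega
    rw [inter_comm] at h5
    simp at h4
    omega
  · push Not at hx
    by_cases hst : s ⊆ t
    · have h1 := card_sdiff_le hs ht hst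
      have h2 : A ∩ t ⊆ t \ s := by
        intro z hz
        simp only [mem_inter, mem_sdiff] at hz ⊢
        exact ⟨hz.2, hx z hz.1⟩
      have h3 := card_le_card h2
      have h4 : 2 ≤ (A \ t).card := by
        have := card_sdiff_add_card_inter A t
        omega
      obtain ⟨x, hx1, y, hy1, hxy⟩ := one_lt_card.1 (by omega : 1 < (A \ t).card)
      simp only [mem_sdiff] at hx1 hy1
      have h5 := hcon x hx1.1 y hy1.1 hxy
      have h6 : t ∩ (s ∪ {x, y}) ⊆ s := by
        intro w hw
        simp only [mem_inter, mem_union, mem_insert, mem_singleton] at hw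
        rcases hw.2 with h | rfl | rfl
        · exact h
        · exact absurd hw.1 hx1.2
        · exact absurd hw.1 hy1.2
      have := card_le_card h6
      omega
    · have h1 : (t ∩ s).card ≤ 3 := by
        have h := card_le_card (inter_subset_right : t ∩ s ⊆ s)
        by_contra hc
        have h2 : t ∩ s = s := eq_of_subset_of_card_le inter_subset_right (by omega)
        exact hst (by rw [← h2]; exact inter_subset_left)
      have key : ∀ x ∈ A, ∀ y ∈ A, x ≠ y → x ∈ t ∧ y ∈ t := by
        intro x hx1 y hy1 hxy
        have h5 := hcon x hx1 y hy1 hxy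
        have h6 : t ∩ (s ∪ {x, y}) ⊆ (t ∩ s) ∪ (t ∩ {x, y}) := by
          intro w hw
          simp only [mem_inter, mem_union] at hw ⊢
          tauto
        have h7 := card_le_card h6
        have h8 := card_union_le (t ∩ s) (t ∩ {x, y})
        have h9 : (t ∩ {x, y}).card = ({x, y} : Finset ℕ).card := by
          have ha := card_le_card (inter_subset_right : t ∩ {x, y} ⊆ {x, y})
          have hb : ({x, y} : Finset ℕ).card = 2 := card_pair hxy
          omega
        have h10 : t ∩ {x, y} = {x, y} := eq_of_subset_of_card_le inter_subset_right (by omega)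
        have h11 : ({x, y} : Finset ℕ) ⊆ t := by rw [← h10]; exact inter_subset_left
        exact ⟨h11 (by simp), h11 (by simp)⟩
      have hAt : A ⊆ t := by
        intro x hx1
        have h2 : ∃ y ∈ A, y ≠ x := by
          by_contra h
          push Not at h
          have : A ⊆ {x} := fun z hz => by simp [h z hz]
          have := card_le_card this
          simp at this
          omega
        obtain ⟨y, hy, hyx⟩ := h2
        exact (key x hx1 y hy (Ne.symm hyx)).1
      have h2 : (t ∩ s).card ≤ 2 := by
        have h3 : A ∪ (t ∩ s) ⊆ t := union_subset hAt inter_subset_left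
        have h4 := card_le_card h3
        have h5 : Disjoint A (t ∩ s) := by
          rw [disjoint_left]
          intro z hz hz2
          exact hx z hz (mem_inter.1 hz2).2
        rw [card_union_of_disjoint h5] at h4
        omega
      obtain ⟨x, hx1, y, hy1, hxy⟩ := one_lt_card.1 (by omega : 1 < A.card)
      have h5 := hcon x hx1 y hy1 hxy
      have h6 : t ∩ (s ∪ {x, y}) ⊆ (t ∩ s) ∪ {x, y} := by
        intro w hw
        simp only [mem_inter, mem_union, mem_insert, mem_singleton] at hw ⊢
        tauto
      have h7 := card_le_card h6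
      have h8 := card_union_le (t ∩ s) {x, y}
      have h9 : ({x, y} : Finset ℕ).card = 2 := card_pair hxy
      omega

end

end Pool.Agent.H33.AB
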