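import Pool.Agent.H33.AB.Sound

set_option autoImplicit false

open Finset

namespace Pool.Agent.H33.AB

theorem ckl_nine : (CKL.all fun x => Nat.beq ((List.range 36).filter (fun c => !tb x c)).length 9)
    = true := by
  decide +kernel

theorem card_filter_range (n : ℕ) (p : ℕ → Prop) [DecidablePred p] :
    ((range n).filter p).card = ((List.range n).filter (fun c => decide (p c))).length := rfl

theorem Lphase {K : ℕ → Prop} (H : Hyp K) (m : Fin 4 → ℕ) (hm : ∀ i, m i < 256)
    (hm4 : ∀ i, pop8 (m i) ≤ 4)
    (hL : ∀ c < 36, K c ∨ ∃ i, 3 ≤ pop8 (Nat.land (m i) (cm c))) : False := by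
  classical
  have htab : ∀ i, ∃ k, k < CKL.length ∧ ∀ c < 36, (CKL.getD k 0).testBit c = true →
      pop8 (Nat.land (m i) (cm c)) ≤ 2 := by
    intro i
    have h := tab_ok
    rw [List.all_eq_true] at h
    have h1 := h (m i) (List.mem_range.2 (hm i))
    rw [Bool.or_eq_true] at h1
    rcases h1 with h1 | h1
    · rw [Nat.ble_eq] at h1
      have := hm4 i
      omega
    · rw [List.any_eq_true] at h1
      obtain ⟨x, hx, h2⟩ := h1
      obtain ⟨k, hk, rfl⟩ := List.mem_iff_getElem.1 hx
      refine ⟨k, hk, ?_⟩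
      intro c hc h3
      rw [List.all_eq_true] at h2
      have h4 := h2 c (List.mem_range.2 hc)
      rw [Bool.or_eq_true, Nat.ble_eq, tb_eq] at h4
      rcases h4 with h4 | h4
      · rw [List.getD_eq_getElem _ _ hk] at h3
        rw [h3] at h4
        simp at h4
      · exact h4
  choose k hk hkc using htab
  have hnine : ∀ i, i < CKL.length →
      ((range 36).filter (fun c => ¬ (CKL.getD i 0).testBit c = true)).card = 9 := by
    intro i hi
    have h := ckl_nine
    rw [List.all_eq_true] at h
    have h1 := h (CKL.getD i 0) (by rw [List.getD_eq_getElem _ _ hi]; exact List.getElem_mem hi)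
    have h2 := Nat.eq_of_beq_eq_true h1
    rw [card_filter_range, ← h2]
    congr 1
    apply List.filter_congr
    intro c _
    rw [tb_eq]
    simp
  obtain ⟨v, hF, hv0, hv⟩ := chk4_sound big13 (fun v => big4 v || q v) CKL (fun v => v < 2 ^ 36)
    (fun v => q v = true ∨ 5 ≤ cnt v) (Nat.pred (Nat.pow 2 36)) (by
      show Nat.pred (Nat.pow 2 36) < 2 ^ 36
      norm_num)
    (fun v x h => lt_of_le_of_lt Nat.and_le_left h)
    (fun v h1 h2 => by
      rw [Bool.or_eq_true] at h2
      rcases h2 with h2 | h2
      · exact Or.inr (big4_cnt h1 h2)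
      · exact Or.inl h2)
    (fun v h1 h2 i hi => by
      right
      have h3 := big13_cnt h1 h2
      have h4 : (range 36).filter (fun c => v.testBit c = true) ⊆
          ((range 36).filter (fun c => (Nat.land v (CKL.getD i 0)).testBit c = true)) ∪
          ((range 36).filter (fun c => ¬ (CKL.getD i 0).testBit c = true)) := by
        intro c hc
        simp only [mem_filter, mem_union] at hc ⊢
        by_cases h5 : (CKL.getD i 0).testBit c = true
        · left
          refine ⟨hc.1, ?_⟩
          have h6 : (Nat.land v (CKL.getD i 0)).testBit c =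
            (v.testBit c && (CKL.getD i 0).testBit c) := Nat.testBit_and _ _ _
          rw [h6, hc.2, h5]; rfl
        · right
          exact ⟨hc.1, h5⟩
      have h5 := (card_le_card h4).trans (card_union_le _ _)
      rw [hnine i hi] at h5
      unfold cnt at h3 ⊢
      omega)
    chk_ok k hk
  have hbit : ∀ c, v.testBit c = true → c < 36 ∧ K c := by
    intro c hc
    obtain ⟨h1, h2⟩ := (hv c).1 hc
    have hc36 : c < 36 := by
      by_contra hcon
      have h4 : 2 ^ 36 ≤ 2 ^ c := Nat.pow_le_pow_right (by norm_num) (by omega)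
      have h5 : Nat.pred (Nat.pow 2 36) < 2 ^ c := lt_of_lt_of_le (by
        show Nat.pred (Nat.pow 2 36) < 2 ^ 36
        norm_num) h4
      rw [Nat.testBit_lt_two_pow h5] at h1
      simp at h1
    refine ⟨hc36, ?_⟩
    rcases hL c hc36 with h3 | ⟨i, h3⟩
    · exact h3
    · have := hkc i c hc36 (h2 i)
      omega
  rcases hF with hF | hF
  · have h1 := badList_sound H ((List.range 36).filter (tb v)) (by
      intro a ha
      rw [List.mem_filter, tb_eq] at ha
      exact hbit a ha.2)
    unfold q at hF
    rw [h1] at hF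
    simp at hF
  · have h1 := dfs_sound H 5 [] (List.range 36) dfs_ok (by simp) (fun a ha => List.mem_range.1 ha)
    have h2 : (range 36).filter (fun c => v.testBit c = true) ⊆ (range 36).filter K := by
      intro c hc
      rw [mem_filter] at hc ⊢
      exact ⟨hc.1, (hbit c hc.2).2⟩
    have h3 := card_le_card h2
    unfold cnt at hF
    rw [card_filter_range 36 K] at h3
    omega

theorem Lphase3 {K : ℕ → Prop} (m : Fin 4 → ℕ) (hm : ∀ i, m i < 128)
    (hm4 : ∀ i, pop8 (m i) ≤ 4)
    (hL : ∀ c < 18, K c ∨ ∃ i, 3 ≤ pop8 (Nat.land (m i) (cm3 c))) :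
    (∃ a b, a < 9 ∧ b < 9 ∧ a ≠ b ∧ K a ∧ K b) ∨ (∃ a b, a < 9 ∧ b < 9 ∧ K a ∧ K (9 + b)) := by
  classical
  have htab : ∀ i, ∃ k, k < CK3.length ∧ ∀ c < 18, (CK3.getD k 0).testBit c = true →
      pop8 (Nat.land (m i) (cm3 c)) ≤ 2 := by
    intro i
    have h := tab3_ok
    rw [List.all_eq_true] at h
    have h1 := h (m i) (List.mem_range.2 (hm i))
    rw [Bool.or_eq_true] at h1
    rcases h1 with h1 | h1
    · rw [Nat.ble_eq] at h1
      have := hm4 i
      omega
    · rw [List.any_eq_true] at h1
      obtain ⟨x, hx, h2⟩ := h1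
      obtain ⟨k, hk, rfl⟩ := List.mem_iff_getElem.1 hx
      refine ⟨k, hk, ?_⟩
      intro c hc h3
      rw [List.all_eq_true] at h2
      have h4 := h2 c (List.mem_range.2 hc)
      rw [Bool.or_eq_true, Nat.ble_eq, tb_eq] at h4
      rcases h4 with h4 | h4
      · rw [List.getD_eq_getElem _ _ hk] at h3
        rw [h3] at h4
        simp at h4
      · exact h4
  choose k hk hkc using htab
  obtain ⟨v, hF, hv0, hv⟩ := chk4_sound (fun _ => false) fin3c CK3 (fun _ => True)
    (fun v => fin3c v = true) 262143 trivial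
    (fun v x h => trivial)
    (fun v h1 h2 => h2)
    (fun v h1 h2 => by simp at h2)
    chk3_ok k hk
  have hbit : ∀ c, c < 18 → v.testBit c = true → K c := by
    intro c hc18 hc
    obtain ⟨h1, h2⟩ := (hv c).1 hc
    rcases hL c hc18 with h3 | ⟨i, h3⟩
    · exact h3
    · have := hkc i c hc18 (h2 i)
      omega
  have hnd : ((List.range 9).filter (tb v)).Nodup := List.nodup_range.filter _
  have hmem : ∀ a ∈ (List.range 9).filter (tb v), a < 9 ∧ K a := by
    intro a ha
    rw [List.mem_filter, tb_eq, List.mem_range] at ha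
    exact ⟨ha.1, hbit a (by omega) ha.2⟩
  unfold fin3c at hF
  split at hF
  · simp at hF
  · next a heq =>
    right
    rw [List.any_eq_true] at hF
    obtain ⟨b, hb, hb2⟩ := hF
    rw [List.mem_range] at hb
    rw [tb_eq] at hb2
    have h1 := hmem a (by rw [heq]; simp)
    exact ⟨a, b, h1.1, hb, h1.2, hbit (9 + b) (by omega) hb2⟩
  · next a b l heq =>
    left
    have h1 := hmem a (by rw [heq]; simp)
    have h2 := hmem b (by rw [heq]; simp)
    refine ⟨a, b, h1.1, h2.1, ?_, h1.2, h2.2⟩
    rw [heq] at hnd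
    rintro rfl
    simp at hnd

end Pool.Agent.H33.AB
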