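import Pool.Agent.H33.AB.Pair

set_option autoImplicit false

open Finset

namespace Pool.Agent.H33.AB

section
variable {A : Finset ℕ} {T : Fin 3 → Finset ℕ}

theorem four_enum {A : Finset ℕ} (hA : A.card = 4) {x x' : ℕ} (hx : x ∈ A) (hx' : x' ∈ A)
    (hne : x ≠ x') : ∃ e1 ∈ A, ∃ e2 ∈ A, e1 ≠ e2 ∧ e1 ≠ x ∧ e1 ≠ x' ∧ e2 ≠ x ∧ e2 ≠ x' := by
  have h1 : ((A.erase x).erase x').card = 2 := by
    rw [card_erase_of_mem (mem_erase.2 ⟨Ne.symm hne, hx'⟩), card_erase_of_mem hx]; omega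
  obtain ⟨e1, h2, e2, h3, h4⟩ := one_lt_card.1 (by omega : 1 < ((A.erase x).erase x').card)
  simp only [mem_erase] at h2 h3
  exact ⟨e1, h2.2.2, e2, h3.2.2, h4, h2.2.1, h2.1, h3.2.1, h3.1⟩

/-- `t ⊇ s` with two further elements listed. -/
theorem sdiff_pair {s t : Finset ℕ} (hs : s.card = 4) (ht : t.card ≤ 6) (hst : s ⊆ t) {e f : ℕ}
    (he : e ∈ t) (hf : f ∈ t) (hes : e ∉ s) (hfs : f ∉ s) (hef : e ≠ f) : t \ s = {e, f} := by
  symm
  apply eq_of_subset_of_card_le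
  · intro z hz
    simp only [mem_insert, mem_singleton] at hz
    rcases hz with rfl | rfl
    · exact mem_sdiff.2 ⟨he, hes⟩
    · exact mem_sdiff.2 ⟨hf, hfs⟩
  · rw [card_pair hef]
    exact card_sdiff_le hs ht hst

theorem mkOne {A : Finset ℕ} {s s' t : Finset ℕ} (hs : s.card = 4) (ht : t.card ≤ 6)
    (hst : s ⊆ t) {e f : ℕ} (he : e ∈ t) (hf : f ∈ t) (heA : e ∈ A) (hfA : f ∈ A)
    (hes : e ∉ s) (hfs : f ∉ s) (hes' : e ∉ s') (hfs' : f ∉ s') (hef : e ≠ f) :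
    One A t s s' := by
  have h := sdiff_pair hs ht hst he hf hes hfs hef
  refine ⟨hst, ?_, ?_, ?_⟩
  · rw [h]
    intro z hz
    simp only [mem_insert, mem_singleton] at hz
    rcases hz with rfl | rfl <;> assumption
  · rw [h, disjoint_left]
    intro z hz
    simp only [mem_insert, mem_singleton] at hz
    rcases hz with rfl | rfl <;> assumption
  · rw [h]; exact card_pair hef

theorem notBoth {s s' t : Finset ℕ} (hs : s.card = 4) (hs' : s'.card = 4) (ht : t.card ≤ 6)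
    (hss : (s ∩ s').card ≤ 2) (hst : s ⊆ t) (hst' : s' ⊆ t) {e : ℕ} (he : e ∈ t) (hes : e ∉ s)
    (hes' : e ∉ s') : False := by
  have h := (both_eq hs hs' ht hst hst' hss).1
  rw [h] at he
  rcases mem_union.1 he with h | h
  · exact hes h
  · exact hes' h

/-- Case I: both sets meet `A`. -/
theorem caseI (hA : A.card = 4) (hT : ∀ j, (T j).card ≤ 6) {s s' : Finset ℕ}
    (hs : s.card = 4) (hs' : s'.card = 4) (hk : Killed A T s) (hk' : Killed A T s')
    (hss : (s ∩ s').card ≤ 2) {x x' : ℕ} (hx : x ∈ A) (hxs : x ∈ s) (hx' : x' ∈ A)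
    (hxs' : x' ∈ s') :
    (s ∩ s').card = 2 ∧ ∃ a b, One A (T a) s s' ∧ One A (T b) s' s := by
  have nS : ∀ e ∈ A, e ≠ x → e ∉ s := fun e he hne h => hne (hk.uniq hs.le he hx h hxs)
  have nS' : ∀ e ∈ A, e ≠ x' → e ∉ s' := fun e he hne h => hne (hk'.uniq hs'.le he hx' h hxs')
  by_cases hxx : x = x'
  · subst hxx
    exfalso
    -- three other colours
    have h3 : (A.erase x).card = 3 := by rw [card_erase_of_mem hx]; omega
    obtain ⟨e, f, g, hef, heg, hfg, h4⟩ := card_eq_three.1 h3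
    have he : e ∈ A.erase x := by rw [h4]; simp
    have hf : f ∈ A.erase x := by rw [h4]; simp
    have hg : g ∈ A.erase x := by rw [h4]; simp
    simp only [mem_erase] at he hf hg
    -- two indices for s
    have two : ∀ u : Finset ℕ, u.card = 4 → Killed A T u → x ∈ u → ∃ i j : Fin 3, i ≠ j ∧
        (u ⊆ T i ∧ ∃ z ∈ A, z ≠ x ∧ z ∈ T i) ∧ (u ⊆ T j ∧ ∃ z ∈ A, z ≠ x ∧ z ∈ T j) := by
      intro u hu hku hxu
      have nU : ∀ e ∈ A, e ≠ x → e ∉ u := fun e he hne h => hne (hku.uniq hu.le he hx h hxu)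
      obtain ⟨i, hi1, hi2⟩ := hku.cover hu hx he.2 hxu he.1
      obtain ⟨j, hj1, hj2⟩ := hku.cover hu hx hf.2 hxu hf.1
      obtain ⟨k, hk1, hk2⟩ := hku.cover hu hx hg.2 hxu hg.1
      by_cases hij : i = j
      · subst hij
        refine ⟨i, k, ?_, ⟨hi1, e, he.2, he.1, hi2⟩, ⟨hk1, g, hg.2, hg.1, hk2⟩⟩
        rintro rfl
        have h5 := sdiff_pair hu (hT i) hi1 hi2 hj2 (nU e he.2 he.1) (nU f hf.2 hf.1) hef
        have h6 : g ∈ T i \ u := mem_sdiff.2 ⟨hk2, nU g hg.2 hg.1⟩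
        rw [h5] at h6
        simp only [mem_insert, mem_singleton] at h6
        rcases h6 with h6 | h6
        · exact heg h6.symm
        · exact hfg h6.symm
      · exact ⟨i, j, hij, ⟨hi1, e, he.2, he.1, hi2⟩, ⟨hj1, f, hf.2, hf.1, hj2⟩⟩
    obtain ⟨i1, i2, hi12, hi1, hi2⟩ := two s hs hk hxs
    obtain ⟨j1, j2, hj12, hj1, hj2⟩ := two s' hs' hk' hxs'
    have key : ∀ i, (s ⊆ T i ∧ ∃ z ∈ A, z ≠ x ∧ z ∈ T i) →
        (s' ⊆ T i ∧ ∃ z ∈ A, z ≠ x ∧ z ∈ T i) → False := by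
      rintro i ⟨h1, z, hz, hzx, hzi⟩ ⟨h2, -⟩
      exact notBoth hs hs' (hT i) hss h1 h2 hzi (nS z hz hzx) (nS' z hz hzx)
    have : i1 = j1 ∨ i1 = j2 ∨ i2 = j1 ∨ i2 = j2 := by
      revert hi12 hj12
      clear * -
      revert i1 i2 j1 j2
      decide
    rcases this with h | h | h | h
    · exact key i1 hi1 (h ▸ hj1)
    · exact key i1 hi1 (h ▸ hj2)
    · exact key i2 hi2 (h ▸ hj1)
    · exact key i2 hi2 (h ▸ hj2)
  · -- distinct
    obtain ⟨e1, he1, e2, he2, he12, h1x, h1x', h2x, h2x'⟩ := four_enum hA hx hx' hxx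
    obtain ⟨a, ha1, ha2⟩ := hk.cover hs hx he1 hxs h1x
    obtain ⟨a', ha1', ha2'⟩ := hk.cover hs hx he2 hxs h2x
    obtain ⟨b, hb1, hb2⟩ := hk'.cover hs' hx' he1 hxs' h1x'
    obtain ⟨b', hb1', hb2'⟩ := hk'.cover hs' hx' he2 hxs' h2x'
    obtain ⟨c, hc1, hc2⟩ := hk.cover hs hx hx' hxs (Ne.symm hxx)
    obtain ⟨d, hd1, hd2⟩ := hk'.cover hs' hx' hx hxs' hxx
    have n1s := nS e1 he1 h1x
    have n1s' := nS' e1 he1 h1x'
    have n2s := nS e2 he2 h2x
    have n2s' := nS' e2 he2 h2x'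
    have nx's := nS x' hx' (Ne.symm hxx)
    have nxs' := nS' x hx hxx
    have d1 : a ≠ b := by
      rintro rfl; exact notBoth hs hs' (hT _) hss ha1 hb1 ha2 n1s n1s'
    have d2 : a' ≠ b := by
      rintro rfl; exact notBoth hs hs' (hT _) hss ha1' hb1 hb2 n1s n1s'
    have d3 : a ≠ b' := by
      rintro rfl; exact notBoth hs hs' (hT _) hss ha1 hb1' ha2 n1s n1s'
    have d4 : a' ≠ b' := by
      rintro rfl; exact notBoth hs hs' (hT _) hss ha1' hb1' ha2' n2s n2s'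
    have d5 : c ≠ b := by
      rintro rfl; exact notBoth hs hs' (hT _) hss hc1 hb1 hb2 n1s n1s'
    have d6 : c ≠ b' := by
      rintro rfl; exact notBoth hs hs' (hT _) hss hc1 hb1' hb2' n2s n2s'
    have d7 : d ≠ a := by
      rintro rfl; exact notBoth hs hs' (hT _) hss ha1 hd1 ha2 n1s n1s'
    have d8 : d ≠ a' := by
      rintro rfl; exact notBoth hs hs' (hT _) hss ha1' hd1 ha2' n2s n2s'
    have trip : ∀ {t u : Finset ℕ} {p q r : ℕ}, u.card = 4 → t.card ≤ 6 → u ⊆ t → p ∈ t → q ∈ t →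
        r ∈ t → p ∉ u → q ∉ u → r ∉ u → p ≠ q → p ≠ r → q ≠ r → False := by
      intro t u p q r hu ht hut hp hq hr hpu hqu hru hpq hpr hqr
      have h5 := sdiff_pair hu ht hut hp hq hpu hqu hpq
      have h6 : r ∈ t \ u := mem_sdiff.2 ⟨hr, hru⟩
      rw [h5] at h6
      simp only [mem_insert, mem_singleton] at h6
      rcases h6 with h6 | h6
      · exact hpr h6.symm
      · exact hqr h6.symm
    have e1c : a = a' → c ≠ a := by
      rintro rfl rfl
      exact trip hs (hT _) ha1 ha2 ha2' hc2 n1s n2s nx's he12 h1x' h2x'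
    have e1d : b = b' → d ≠ b := by
      rintro rfl rfl
      exact trip hs' (hT _) hb1 hb2 hb2' hd2 n1s' n2s' nxs' he12 h1x h2x
    have fin : a = a' ∧ b = b' ∧ c = d ∧ a ≠ c ∧ b ≠ c := by
      clear * - d1 d2 d3 d4 d5 d6 d7 d8 e1c e1d
      simp only [ne_eq, Fin.ext_iff] at d1 d2 d3 d4 d5 d6 d7 d8 e1c e1d ⊢
      omega
    obtain ⟨rfl, rfl, rfl, -, -⟩ := fin
    refine ⟨(both_eq hs hs' (hT c) hc1 hd1 hss).2, a, b, ?_, ?_⟩
    · exact mkOne hs (hT _) ha1 ha2 ha2' he1 he2 n1s n2s n1s' n2s' he12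
    · exact mkOne hs' (hT _) hb1 hb2 hb2' he1 he2 n1s' n2s' n1s n2s he12

/-- no three elements outside. -/
theorem trip {t u : Finset ℕ} {p q r : ℕ} (hu : u.card = 4) (ht : t.card ≤ 6) (hut : u ⊆ t)
    (hp : p ∈ t) (hq : q ∈ t) (hr : r ∈ t) (hpu : p ∉ u) (hqu : q ∉ u) (hru : r ∉ u)
    (hpq : p ≠ q) (hpr : p ≠ r) (hqr : q ≠ r) : False := by
  have h5 := sdiff_pair hu ht hut hp hq hpu hqu hpq
  have h6 : r ∈ t \ u := mem_sdiff.2 ⟨hr, hru⟩
  rw [h5] at h6
  simp only [mem_insert, mem_singleton] at h6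
  rcases h6 with h6 | h6
  · exact hpr h6.symm
  · exact hqr h6.symm

/-- if `t ⊇ s` contains `f ∉ s ∪ s'` and kills `(s', {x, r})` with `x ∈ s \ s'`, then
`|s ∩ s'| = 2` and `f = r`. -/
theorem kill_x {s s' t : Finset ℕ} (hs : s.card = 4) (ht : t.card ≤ 6) (hst : s ⊆ t)
    (hss : (s ∩ s').card ≤ 2) {x r f : ℕ} (hft : f ∈ t) (hfs : f ∉ s)
    (hfs' : f ∉ s') (hr : r ∉ s) (h : 5 ≤ (t ∩ (s' ∪ {x, r})).card) :
    (s ∩ s').card = 2 ∧ f = r := by
  have h1 := card_sdiff_le hs ht hst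
  have h2 : t ∩ (s' ∪ {x, r}) ⊆ insert x ((s ∩ s') ∪ ((t \ s) ∩ (s' ∪ {r}))) := by
    intro z hz
    simp only [mem_inter, mem_union, mem_insert, mem_singleton, mem_sdiff] at hz ⊢
    by_cases hzx : z = x
    · exact Or.inl hzx
    right
    by_cases hzs : z ∈ s
    · rcases hz.2 with h3 | h3 | h3
      · exact Or.inl ⟨hzs, h3⟩
      · exact absurd h3 hzx
      · exact absurd hzs (h3 ▸ hr)
    · right
      refine ⟨⟨hz.1, hzs⟩, ?_⟩
      rcases hz.2 with h3 | h3 | h3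
      · exact Or.inl h3
      · exact absurd h3 hzx
      · exact Or.inr h3
  have h3 := card_le_card h2
  have h4 := card_insert_le x ((s ∩ s') ∪ ((t \ s) ∩ (s' ∪ {r})))
  have h5 := card_union_le (s ∩ s') ((t \ s) ∩ (s' ∪ {r}))
  have h6 := card_le_card (inter_subset_left : (t \ s) ∩ (s' ∪ {r}) ⊆ t \ s)
  refine ⟨by omega, ?_⟩
  have h7 : (t \ s) ∩ (s' ∪ {r}) = t \ s := eq_of_subset_of_card_le inter_subset_left (by omega)
  have h8 : f ∈ t \ s := mem_sdiff.2 ⟨hft, hfs⟩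
  rw [← h7] at h8
  simp only [mem_inter, mem_union, mem_singleton] at h8
  rcases h8.2 with h9 | h9
  · exact absurd h9 hfs'
  · exact h9

theorem caseII (hA : A.card = 4) (hT : ∀ j, (T j).card ≤ 6) {s s' : Finset ℕ}
    (hs : s.card = 4) (hs' : s'.card = 4) (hk : Killed A T s) (hk' : Killed A T s')
    (hss : (s ∩ s').card ≤ 2) {x : ℕ} (hx : x ∈ A) (hxs : x ∈ s) (hAs' : ∀ y ∈ A, y ∉ s') :
    (s ∩ s').card = 2 ∧ ∃ a b, One A (T a) s s' ∧ One A (T b) s' s := by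
  have nS : ∀ e ∈ A, e ≠ x → e ∉ s := fun e he hne h => hne (hk.uniq hs.le he hx h hxs)
  have h3 : (A.erase x).card = 3 := by rw [card_erase_of_mem hx]; omega
  obtain ⟨e, f, g, hef, heg, hfg, h4⟩ := card_eq_three.1 h3
  have he : e ∈ A.erase x := by rw [h4]; simp
  have hf : f ∈ A.erase x := by rw [h4]; simp
  have hg : g ∈ A.erase x := by rw [h4]; simp
  have hall : ∀ z ∈ A, z ≠ x → z = e ∨ z = f ∨ z = g := by
    intro z hz hzx
    have : z ∈ A.erase x := mem_erase.2 ⟨hzx, hz⟩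
    rw [h4] at this
    simpa using this
  simp only [mem_erase] at he hf hg
  obtain ⟨i, hi1, hi2⟩ := hk.cover hs hx he.2 hxs he.1
  obtain ⟨j, hj1, hj2⟩ := hk.cover hs hx hf.2 hxs hf.1
  obtain ⟨k, hk1, hk2⟩ := hk.cover hs hx hg.2 hxs hg.1
  -- a useful index kills no pair of `E` for `s'`
  have nk : ∀ l, s ⊆ T l → ∀ y ∈ A, ∀ z ∈ A, y ≠ x → z ≠ x →
      (T l ∩ (s' ∪ {y, z})).card ≤ 4 := by
    intro l hl y hy z hz hyx hzx
    apply no_kill hs (hT l) hl hss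
    intro w hw
    simp only [mem_insert, mem_singleton] at hw
    rcases hw with rfl | rfl
    · exact nS _ hy hyx
    · exact nS _ hz hzx
  -- the two useful indices and the third
  obtain ⟨p, q, b, hpq, hpb, hqb, hp1, hq1, hij⟩ : ∃ p q b : Fin 3, p ≠ q ∧ p ≠ b ∧ q ≠ b ∧
      s ⊆ T p ∧ s ⊆ T q ∧ (∀ z ∈ A, z ≠ x → z ∈ T p ∨ z ∈ T q) := by
    have hne : ¬ (i = j ∧ j = k) := by
      rintro ⟨rfl, rfl⟩
      exact trip hs (hT _) hi1 hi2 hj2 hk2 (nS e he.2 he.1) (nS f hf.2 hf.1) (nS g hg.2 hg.1)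
        hef heg hfg
    have hdist : ¬ (i ≠ j ∧ i ≠ k ∧ j ≠ k) := by
      rintro ⟨h1, h2, h5⟩
      obtain ⟨l, hl⟩ := hk'.pair he.2 hf.2 hef
      have : s ⊆ T l := by
        rcases fin3 i j k l h1 h2 h5 with rfl | rfl | rfl <;> assumption
      have := nk l this e he.2 f hf.2 he.1 hf.1
      omega
    have third : ∀ p q : Fin 3, p ≠ q → ∃ b, p ≠ b ∧ q ≠ b := by decide
    by_cases hij : i = j
    · subst hij
      have hik : i ≠ k := fun h => hne ⟨rfl, h⟩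
      obtain ⟨b, hb1, hb2⟩ := third i k hik
      refine ⟨i, k, b, hik, hb1, hb2, hi1, hk1, ?_⟩
      intro z hz hzx
      rcases hall z hz hzx with rfl | rfl | rfl
      · exact Or.inl hi2
      · exact Or.inl hj2
      · exact Or.inr hk2
    · obtain ⟨b, hb1, hb2⟩ := third i j hij
      refine ⟨i, j, b, hij, hb1, hb2, hi1, hj1, ?_⟩
      intro z hz hzx
      rcases hall z hz hzx with rfl | rfl | rfl
      · exact Or.inl hi2
      · exact Or.inr hj2
      · by_cases hik : i = k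
        · exact Or.inl (hik ▸ hk2)
        · by_cases hjk : j = k
          · exact Or.inr (hjk ▸ hk2)
          · exact absurd ⟨hij, hik, hjk⟩ hdist
  -- each of `p`, `q` contains a colour of `E`
  have useP : ∃ z ∈ A, z ≠ x ∧ z ∈ T p := by
    by_contra hcon
    push Not at hcon
    have m1 := (hij e he.2 he.1).resolve_left (hcon e he.2 he.1)
    have m2 := (hij f hf.2 hf.1).resolve_left (hcon f hf.2 hf.1)
    have m3 := (hij g hg.2 hg.1).resolve_left (hcon g hg.2 hg.1)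
    exact trip hs (hT _) hq1 m1 m2 m3 (nS e he.2 he.1) (nS f hf.2 hf.1) (nS g hg.2 hg.1)
        hef heg hfg
  have useQ : ∃ z ∈ A, z ≠ x ∧ z ∈ T q := by
    by_contra hcon
    push Not at hcon
    have m1 := (hij e he.2 he.1).resolve_right (hcon e he.2 he.1)
    have m2 := (hij f hf.2 hf.1).resolve_right (hcon f hf.2 hf.1)
    have m3 := (hij g hg.2 hg.1).resolve_right (hcon g hg.2 hg.1)
    exact trip hs (hT _) hp1 m1 m2 m3 (nS e he.2 he.1) (nS f hf.2 hf.1) (nS g hg.2 hg.1)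
        hef heg hfg
  obtain ⟨y, hyA, hyx, hyp⟩ := useP
  obtain ⟨z, hzA, hzx, hzq⟩ := useQ
  have hb : ∀ u ∈ A, ∀ v ∈ A, u ≠ x → v ≠ x → u ≠ v → 5 ≤ (T b ∩ (s' ∪ {u, v})).card := by
    intro u hu v hv hux hvx huv
    obtain ⟨l, hl⟩ := hk'.pair hu hv huv
    rcases fin3 p q b l hpq hpb hqb with rfl | rfl | rfl
    · have := nk l hp1 u hu v hv hux hvx; omega
    · have := nk l hq1 u hu v hv hux hvx; omega
    · exact hl
  have nxs' : x ∉ s' := hAs' x hx
  -- consequences of killing `{x, r}` by `p` or `q`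
  have kx : ∀ r ∈ A, r ≠ x → (T b ∩ (s' ∪ {x, r})).card ≤ 4 →
      (s ∩ s').card = 2 ∧ (r = y ∨ r = z) ∧ ((∀ w ∈ A, w ≠ x → w ∈ T p → w = r) ∨
        (∀ w ∈ A, w ≠ x → w ∈ T q → w = r)) := by
    intro r hr hrx hbr
    obtain ⟨l, hl⟩ := hk'.pair hx hr (Ne.symm hrx)
    rcases fin3 p q b l hpq hpb hqb with rfl | rfl | rfl
    · have h5 := kill_x hs (hT _) hp1 hss hyp (nS y hyA hyx) (hAs' y hyA) (nS r hr hrx) hl
      refine ⟨h5.1, Or.inl h5.2.symm, Or.inl ?_⟩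
      intro w hw hwx hwp
      exact (kill_x hs (hT _) hp1 hss hwp (nS w hw hwx) (hAs' w hw) (nS r hr hrx) hl).2
    · have h5 := kill_x hs (hT _) hq1 hss hzq (nS z hzA hzx) (hAs' z hzA) (nS r hr hrx) hl
      refine ⟨h5.1, Or.inr h5.2.symm, Or.inr ?_⟩
      intro w hw hwx hwp
      exact (kill_x hs (hT _) hq1 hss hwp (nS w hw hwx) (hAs' w hw) (nS r hr hrx) hl).2
    · omega
  have hs'b : s' ⊆ T b := by
    by_contra hn
    -- `E ⊆ T b`, `|T b ∩ s'| = 3`
    have c1 := (kill_cases hs' (hb e he.2 f hf.2 he.1 hf.1 hef)).resolve_left (fun h => hn h.1)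
    have c2 := (kill_cases hs' (hb e he.2 g hg.2 he.1 hg.1 heg)).resolve_left (fun h => hn h.1)
    have hxb : ∀ r ∈ A, r ≠ x → (T b ∩ (s' ∪ {x, r})).card ≤ 4 := by
      intro r hr hrx
      by_contra hcon
      push Not at hcon
      have c3 := (kill_cases hs' hcon).resolve_left (fun h => hn h.1)
      have h5 : (T b ∩ s') ∪ {x, e, f, g} ⊆ T b := by
        intro w hw
        simp only [mem_union, mem_inter, mem_insert, mem_singleton] at hw
        rcases hw with h | rfl | rfl | rfl | rfl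
        · exact h.1
        · exact c3.2.1
        · exact c1.2.1
        · exact c1.2.2.1
        · exact c2.2.2.1
      have h6 := card_le_card h5
      have h7 : Disjoint (T b ∩ s') {x, e, f, g} := by
        rw [disjoint_right]
        intro w hw hw2
        simp only [mem_insert, mem_singleton] at hw
        have := (mem_inter.1 hw2).2
        rcases hw with rfl | rfl | rfl | rfl
        · exact hAs' _ hx this
        · exact hAs' _ he.2 this
        · exact hAs' _ hf.2 this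
        · exact hAs' _ hg.2 this
      rw [card_union_of_disjoint h7] at h6
      have h9 : ({x, e, f, g} : Finset ℕ).card = 4 := by
        have : x ∉ ({e, f, g} : Finset ℕ) := by
          rw [← h4]; simp
        rw [card_insert_of_notMem this, ← h4, h3]
      have := hT b
      omega
    have k1 := (kx e he.2 he.1 (hxb e he.2 he.1)).2.1
    have k2 := (kx f hf.2 hf.1 (hxb f hf.2 hf.1)).2.1
    have k3 := (kx g hg.2 hg.1 (hxb g hg.2 hg.1)).2.1
    omega
  -- T b contains two of the three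
  obtain ⟨u, v, r, huv, hur, hvr, huA, hvA, hrA, hux, hvx, hrx, hub, hvb⟩ :
      ∃ u v r, u ≠ v ∧ u ≠ r ∧ v ≠ r ∧ u ∈ A ∧ v ∈ A ∧ r ∈ A ∧ u ≠ x ∧ v ≠ x ∧ r ≠ x ∧
        u ∈ T b ∧ v ∈ T b := by
    have c : ∀ u ∈ A, ∀ v ∈ A, u ≠ x → v ≠ x → u ≠ v → u ∈ T b ∨ v ∈ T b := by
      intro u hu v hv hux hvx huv
      rcases kill_cases hs' (hb u hu v hv hux hvx huv) with h | h
      · exact h.2
      · exact absurd hs'b h.2.2.2
    by_cases h1 : e ∈ T b
    · rcases c f hf.2 g hg.2 hf.1 hg.1 hfg with h2 | h2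
      · exact ⟨e, f, g, hef, heg, hfg, he.2, hf.2, hg.2, he.1, hf.1, hg.1, h1, h2⟩
      · exact ⟨e, g, f, heg, hef, Ne.symm hfg, he.2, hg.2, hf.2, he.1, hg.1, hf.1, h1, h2⟩
    · have h2 := (c e he.2 f hf.2 he.1 hf.1 hef).resolve_left h1
      have h5 := (c e he.2 g hg.2 he.1 hg.1 heg).resolve_left h1
      exact ⟨f, g, e, hfg, Ne.symm hef, Ne.symm heg, hf.2, hg.2, he.2, hf.1, hg.1, he.1, h2, h5⟩
  have hxb : x ∉ T b := fun h =>
    trip hs' (hT b) hs'b h hub hvb nxs' (hAs' u huA) (hAs' v hvA) (Ne.symm hux) (Ne.symm hvx) huv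
  have hrb : r ∉ T b := fun h =>
    trip hs' (hT b) hs'b h hub hvb (hAs' r hrA) (hAs' u huA) (hAs' v hvA) (Ne.symm hur)
      (Ne.symm hvr) huv
  have hfin := kx r hrA hrx (by
    have : T b ∩ (s' ∪ {x, r}) ⊆ s' := by
      intro w hw
      simp only [mem_inter, mem_union, mem_insert, mem_singleton] at hw
      rcases hw.2 with h | rfl | rfl
      · exact h
      · exact absurd hw.1 hxb
      · exact absurd hw.1 hrb
    have := card_le_card this
    omega)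
  refine ⟨hfin.1, ?_⟩
  rcases hfin.2.2 with h | h
  · -- T p ∩ E = {r}, so u, v ∈ T q
    have m1 : u ∈ T q := (hij u huA hux).resolve_left (fun h5 => hur (h u huA hux h5))
    have m2 : v ∈ T q := (hij v hvA hvx).resolve_left (fun h5 => hvr (h v hvA hvx h5))
    exact ⟨q, b, mkOne hs (hT _) hq1 m1 m2 huA hvA (nS u huA hux) (nS v hvA hvx) (hAs' u huA)
      (hAs' v hvA) huv, mkOne hs' (hT _) hs'b hub hvb huA hvA (hAs' u huA) (hAs' v hvA)
      (nS u huA hux) (nS v hvA hvx) huv⟩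
  · have m1 : u ∈ T p := (hij u huA hux).resolve_right (fun h5 => hur (h u huA hux h5))
    have m2 : v ∈ T p := (hij v hvA hvx).resolve_right (fun h5 => hvr (h v hvA hvx h5))
    exact ⟨p, b, mkOne hs (hT _) hp1 m1 m2 huA hvA (nS u huA hux) (nS v hvA hvx) (hAs' u huA)
      (hAs' v hvA) huv, mkOne hs' (hT _) hs'b hub hvb huA hvA (hAs' u huA) (hAs' v hvA)
      (nS u huA hux) (nS v hvA hvx) huv⟩

/-- two killed four-sets with small intersection. -/
theorem N2 (hA : A.card = 4) (hT : ∀ j, (T j).card ≤ 6) {s s' : Finset ℕ}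
    (hs : s.card = 4) (hs' : s'.card = 4) (hk : Killed A T s) (hk' : Killed A T s')
    (hss : (s ∩ s').card ≤ 2) :
    (s ∩ s').card = 2 ∧ ∃ a b, One A (T a) s s' ∧ One A (T b) s' s := by
  have hss' : (s' ∩ s).card ≤ 2 := by rw [inter_comm]; exact hss
  by_cases h1 : ∃ x ∈ A, x ∈ s
  · obtain ⟨x, hx, hxs⟩ := h1
    by_cases h2 : ∃ x' ∈ A, x' ∈ s'
    · obtain ⟨x', hx', hxs'⟩ := h2
      exact caseI hA hT hs hs' hk hk' hss hx hxs hx' hxs'
    · push Not at h2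
      exact caseII hA hT hs hs' hk hk' hss hx hxs h2
  · push Not at h1
    by_cases h2 : ∃ x' ∈ A, x' ∈ s'
    · obtain ⟨x', hx', hxs'⟩ := h2
      obtain ⟨h3, a, b, ha, hb⟩ := caseII hA hT hs' hs hk' hk hss' hx' hxs' h1
      exact ⟨by rw [inter_comm]; exact h3, b, a, hb, ha⟩
    · push Not at h2
      exact caseIII hA hT hs hs' hk hk' hss h1 h2

end

end Pool.Agent.H33.AB
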