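import Pool.Agent.H33.AB.N2

set_option autoImplicit false

open Finset

namespace Pool.Agent.H33.AB

section
variable {A : Finset ℕ} {T : Fin 3 → Finset ℕ}

theorem One.inter {s s' t : Finset ℕ} (h : One A t s s') : t ∩ s' = s ∩ s' := by
  ext z
  simp only [mem_inter]
  constructor
  · rintro ⟨h1, h2⟩
    refine ⟨?_, h2⟩
    by_contra hn
    exact (disjoint_left.1 h.2.2.1) (mem_sdiff.2 ⟨h1, hn⟩) h2
  · rintro ⟨h1, h2⟩
    exact ⟨h.1 h1, h2⟩

theorem noKill2 {s t : Finset ℕ} (h : (t ∩ s).card ≤ 2) (x y : ℕ) :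
    (t ∩ (s ∪ {x, y})).card ≤ 4 := by
  have h1 : t ∩ (s ∪ {x, y}) ⊆ (t ∩ s) ∪ {x, y} := by
    intro w hw
    simp only [mem_inter, mem_union, mem_insert, mem_singleton] at hw ⊢
    tauto
  have h2 := card_le_card h1
  have h3 := card_union_le (t ∩ s) {x, y}
  have h4 : ({x, y} : Finset ℕ).card ≤ 2 := card_le_two
  omega

/-- two lists which kill nothing: contradiction. -/
theorem twoDead (hA : A.card = 4) (hT : ∀ j, (T j).card ≤ 6) {s : Finset ℕ} (hs : s.card = 4)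
    (hk : Killed A T s) {a b : Fin 3} (hab : a ≠ b) (ha : (T a ∩ s).card ≤ 2)
    (hb : (T b ∩ s).card ≤ 2) : False := by
  have third : ∀ p q : Fin 3, p ≠ q → ∃ b, p ≠ b ∧ q ≠ b := by decide
  obtain ⟨c, hc1, hc2⟩ := third a b hab
  obtain ⟨x, hx, y, hy, hxy, hn⟩ := single (t := T c) hA hs (hT c)
  obtain ⟨j, hj⟩ := hk.pair hx hy hxy
  rcases fin3 a b c j hab hc1 hc2 with rfl | rfl | rfl
  · have := noKill2 ha x y; omega
  · have := noKill2 hb x y; omega
  · omega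

theorem P2 (hA : A.card = 4) (hT : ∀ j, (T j).card ≤ 6) {s s' s'' : Finset ℕ}
    (hs : s.card = 4) (hs' : s'.card = 4) (hs'' : s''.card = 4) (hk : Killed A T s)
    (hk' : Killed A T s') (hk'' : Killed A T s'') (hne : s ≠ s') (h1 : (s ∩ s'').card ≤ 2)
    (h2 : (s' ∩ s'').card ≤ 2) : False := by
  obtain ⟨c1, a, b, ha, hb⟩ := N2 hA hT hs hs'' hk hk'' h1
  obtain ⟨c2, a', b', ha', hb'⟩ := N2 hA hT hs' hs'' hk' hk'' h2
  have i1 := ha.inter
  have i2 := ha'.inter
  by_cases haa : a = a'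
  swap
  · exact twoDead hA hT hs'' hk'' haa (by rw [i1]; exact c1.le) (by rw [i2]; exact c2.le)
  subst haa
  -- `s \ s' = {x}` and `s' \ s = {y}`
  have sA : s \ s' ⊆ A := fun z hz => ha'.2.1 (sdiff_subset_sdiff ha.1 (subset_refl _) hz)
  have sA' : s' \ s ⊆ A := fun z hz => ha.2.1 (sdiff_subset_sdiff ha'.1 (subset_refl _) hz)
  have nsub : ¬ s ⊆ s' := fun h => hne (eq_of_subset_of_card_le h (by omega))
  have nsub' : ¬ s' ⊆ s := fun h => hne (eq_of_subset_of_card_le h (by omega)).symm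
  obtain ⟨x, hxs, hxs'⟩ := not_subset.1 nsub
  obtain ⟨y, hys', hys⟩ := not_subset.1 nsub'
  have hxA : x ∈ A := sA (mem_sdiff.2 ⟨hxs, hxs'⟩)
  have hyA : y ∈ A := sA' (mem_sdiff.2 ⟨hys', hys⟩)
  have hxy : x ≠ y := fun h => hys (h ▸ hxs)
  have u1 : ∀ z ∈ A, z ≠ x → z ∉ s := fun e he hne h => hne (hk.uniq hs.le he hxA h hxs)
  have u2 : ∀ z ∈ A, z ≠ y → z ∉ s' := fun e he hne h => hne (hk'.uniq hs'.le he hyA h hys')
  obtain ⟨w1, hw1, w2, hw2, hw12, hw1x, hw1y, hw2x, hw2y⟩ := four_enum hA hxA hyA hxy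
  -- one of `w1, w2` lies in `T a`, the other does not
  have hyT : y ∈ T a := ha'.1 hys'
  have hxT : x ∈ T a := ha.1 hxs
  obtain ⟨z, w, hzA, hwA, hzw, hzx, hzy, hwx, hwy, hzT, hwT⟩ : ∃ z w, z ∈ A ∧ w ∈ A ∧ z ≠ w ∧
      z ≠ x ∧ z ≠ y ∧ w ≠ x ∧ w ≠ y ∧ z ∈ T a ∧ w ∉ T a := by
    have h5 : ∃ z ∈ T a \ s, z ≠ y := by
      by_contra hcon
      push Not at hcon
      have : T a \ s ⊆ {y} := fun z hz => by simp [hcon z hz]
      have := card_le_card this
      rw [ha.2.2.2, card_singleton] at this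
      omega
    obtain ⟨z, hz, hzy⟩ := h5
    have hzA := ha.2.1 hz
    have hz2 := mem_sdiff.1 hz
    have hzx : z ≠ x := fun h => hz2.2 (h ▸ hxs)
    have hz3 : ∃ w ∈ A, w ≠ x ∧ w ≠ y ∧ w ≠ z := by
      by_cases h6 : w1 = z
      · exact ⟨w2, hw2, hw2x, hw2y, fun h => hw12 (h6.trans h.symm)⟩
      · exact ⟨w1, hw1, hw1x, hw1y, h6⟩
    obtain ⟨w, hw, hwx, hwy, hwz⟩ := hz3
    refine ⟨z, w, hzA, hw, Ne.symm hwz, hzx, hzy, hwx, hwy, hz2.1, ?_⟩
    intro hwT
    exact trip hs (hT a) ha.1 hyT hz2.1 hwT hys hz2.2 (u1 w hw hwx) (Ne.symm hzy)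
      (Ne.symm hwy) (Ne.symm hwz)
  have hw_s := u1 w hwA hwx
  have hw_s' := u2 w hwA hwy
  have hz_s := u1 z hzA hzx
  have hz_s' := u2 z hzA hzy
  -- x, y, z ∉ s''
  have hy'' : y ∉ s'' := disjoint_left.1 ha.2.2.1 (mem_sdiff.2 ⟨hyT, hys⟩)
  have hz'' : z ∉ s'' := disjoint_left.1 ha.2.2.1 (mem_sdiff.2 ⟨hzT, hz_s⟩)
  have hx'' : x ∉ s'' := disjoint_left.1 ha'.2.2.1 (mem_sdiff.2 ⟨hxT, hxs'⟩)
  -- b ≠ a
  have hba : b ≠ a := by
    rintro rfl
    have h5 : s'' ⊆ T b ∩ s'' := subset_inter hb.1 (subset_refl _)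
    have h6 := card_le_card h5
    rw [i1] at h6
    omega
  have hbs : ¬ s ⊆ T b := by
    intro h
    have h5 : s \ s'' ⊆ A := fun z hz => hb.2.1 (sdiff_subset_sdiff h (subset_refl _) hz)
    have h6 : 1 < (s \ s'').card := by
      have := card_sdiff_add_card_inter s s''
      omega
    obtain ⟨p, hp, q, hq, hpq⟩ := one_lt_card.1 h6
    exact hpq (hk.uniq hs.le (h5 hp) (h5 hq) (mem_sdiff.1 hp).1 (mem_sdiff.1 hq).1)
  have hbs' : ¬ s' ⊆ T b := by
    intro h
    have h5 : s' \ s'' ⊆ A := fun z hz => hb.2.1 (sdiff_subset_sdiff h (subset_refl _) hz)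
    have h6 : 1 < (s' \ s'').card := by
      have := card_sdiff_add_card_inter s' s''
      omega
    obtain ⟨p, hp, q, hq, hpq⟩ := one_lt_card.1 h6
    exact hpq (hk'.uniq hs'.le (h5 hp) (h5 hq) (mem_sdiff.1 hp).1 (mem_sdiff.1 hq).1)
  obtain ⟨c, hc1, hc2⟩ := hk.cover hs hxA hwA hxs hwx
  obtain ⟨d, hd1, hd2⟩ := hk'.cover hs' hyA hwA hys' hwy
  have hca : a ≠ c := by rintro rfl; exact hwT hc2
  have hda : a ≠ d := by rintro rfl; exact hwT hd2
  have hcb : b ≠ c := by rintro rfl; exact hbs hc1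
  have hdb : b ≠ d := by rintro rfl; exact hbs' hd1
  have hcd : c = d := by
    rcases fin3 a b c d (Ne.symm hba) hca hcb with h | h | h
    · exact absurd h.symm hda
    · exact absurd h.symm hdb
    · exact h.symm
  subst hcd
  have hyc : y ∈ T c := hd1 hys'
  have hTc : T c \ s = {y, w} := sdiff_pair hs (hT c) hc1 hyc hc2 hys hw_s (Ne.symm hwy)
  by_cases hw'' : w ∈ s''
  · -- cover x, y, z for s''
    have nc : ¬ s'' ⊆ T c := by
      intro h
      have h5 : s'' \ s ⊆ {y, w} := by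
        rw [← hTc]; exact sdiff_subset_sdiff h (subset_refl _)
      have h6 : s'' \ s ⊆ {w} := by
        intro v hv
        have := h5 hv
        simp only [mem_insert, mem_singleton] at this ⊢
        rcases this with rfl | h7
        · exact absurd (mem_sdiff.1 hv).1 hy''
        · exact h7
      have h7 := card_le_card h6
      have h8 := card_sdiff_add_card_inter s'' s
      rw [inter_comm] at h8
      rw [card_singleton] at h7
      omega
    have na : ¬ s'' ⊆ T a := by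
      intro h
      have h5 : s'' ⊆ T a ∩ s'' := subset_inter h (subset_refl _)
      have h6 := card_le_card h5
      rw [i1] at h6
      omega
    have cov : ∀ v ∈ A, v ≠ w → v ∈ T b := by
      intro v hv hvw
      obtain ⟨j, hj1, hj2⟩ := hk''.cover hs'' hwA hv hw'' hvw
      rcases fin3 a b c j (Ne.symm hba) hca hcb with rfl | rfl | rfl
      · exact absurd hj1 na
      · exact hj2
      · exact absurd hj1 nc
    exact trip hs'' (hT b) hb.1 (cov x hxA (Ne.symm hwx)) (cov y hyA (Ne.symm hwy))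
      (cov z hzA hzw) hx'' hy'' hz'' hxy (Ne.symm hzx) (Ne.symm hzy)
  · -- T c kills nothing for s''
    have h5 : T c ∩ s'' ⊆ s ∩ s'' := by
      intro v hv
      simp only [mem_inter] at hv ⊢
      refine ⟨?_, hv.2⟩
      by_contra hvs
      have : v ∈ T c \ s := mem_sdiff.2 ⟨hv.1, hvs⟩
      rw [hTc] at this
      simp only [mem_insert, mem_singleton] at this
      rcases this with rfl | rfl
      · exact hy'' hv.2
      · exact hw'' hv.2
    have h6 := card_le_card h5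
    exact twoDead hA hT hs'' hk'' hca (by rw [i1]; exact c1.le) (by omega)

theorem One.interU {s s' t : Finset ℕ} (h : One A t s s') : t ∩ (s ∪ s') = s := by
  have h1 := h.inter
  ext z
  simp only [mem_inter, mem_union]
  constructor
  · rintro ⟨h2, h3 | h3⟩
    · exact h3
    · have : z ∈ t ∩ s' := mem_inter.2 ⟨h2, h3⟩
      rw [h1] at this
      exact (mem_inter.1 this).1
  · intro h2
    exact ⟨h.1 h2, Or.inl h2⟩

theorem P3 (hA : A.card = 4) (hT : ∀ j, (T j).card ≤ 6) {a b c d : Finset ℕ}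
    (ha : a.card = 4) (hb : b.card = 4) (hc : c.card = 4) (hd : d.card = 4)
    (ka : Killed A T a) (kb : Killed A T b) (kc : Killed A T c) (kd : Killed A T d)
    (hab : (a ∩ b).card ≤ 2) (hcd : (c ∩ d).card ≤ 2) (hU : a ∪ b = c ∪ d)
    (h1 : a ≠ b) (h2 : a ≠ c) (h3 : a ≠ d) (h4 : b ≠ c) (h5 : b ≠ d) (h6 : c ≠ d) : False := by
  obtain ⟨-, i, j, hi, hj⟩ := N2 hA hT ha hb ka kb hab
  obtain ⟨-, k, l, hk, hl⟩ := N2 hA hT hc hd kc kd hcd
  have ei := hi.interU
  have ej := hj.interU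
  rw [union_comm] at ej
  have ek := hk.interU
  rw [← hU] at ek
  have el := hl.interU
  rw [union_comm, ← hU] at el
  have n1 : i ≠ j := by rintro rfl; exact h1 (ei.symm.trans ej)
  have n2 : i ≠ k := by rintro rfl; exact h2 (ei.symm.trans ek)
  have n3 : i ≠ l := by rintro rfl; exact h3 (ei.symm.trans el)
  have n4 : j ≠ k := by rintro rfl; exact h4 (ej.symm.trans ek)
  have n5 : j ≠ l := by rintro rfl; exact h5 (ej.symm.trans el)
  have n6 : k ≠ l := by rintro rfl; exact h6 (ek.symm.trans el)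
  rcases fin3 i j k l n1 n2 n4 with h | h | h
  · exact n3 h.symm
  · exact n5 h.symm
  · exact n6 h.symm

end

end Pool.Agent.H33.AB
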