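import Pool.Agent.H33.AB.Kill

set_option autoImplicit false

open Finset

namespace Pool.Agent.H33.AB

theorem kill_cases {s t : Finset ℕ} (hs : s.card = 4) {x y : ℕ}
    (h : 5 ≤ (t ∩ (s ∪ {x, y})).card) :
    (s ⊆ t ∧ (x ∈ t ∨ y ∈ t)) ∨ ((t ∩ s).card = 3 ∧ x ∈ t ∧ y ∈ t ∧ ¬ s ⊆ t) := by
  by_cases hst : s ⊆ t
  · left
    refine ⟨hst, ?_⟩
    by_contra hc
    push Not at hc
    have h6 : t ∩ (s ∪ {x, y}) ⊆ s := by
      intro w hw
      simp only [mem_inter, mem_union, mem_insert, mem_singleton] at hw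
      rcases hw.2 with h | rfl | rfl
      · exact h
      · exact absurd hw.1 hc.1
      · exact absurd hw.1 hc.2
    have := card_le_card h6
    omega
  · right
    have h1 : (t ∩ s).card ≤ 3 := by
      have h := card_le_card (inter_subset_right : t ∩ s ⊆ s)
      by_contra hc
      have h2 : t ∩ s = s := eq_of_subset_of_card_le inter_subset_right (by omega)
      exact hst (by rw [← h2]; exact inter_subset_left)
    have h6 : t ∩ (s ∪ {x, y}) ⊆ (t ∩ s) ∪ (t ∩ {x, y}) := by
      intro w hw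
      simp only [mem_inter, mem_union] at hw ⊢
      tauto
    have h7 := card_le_card h6
    have h8 := card_union_le (t ∩ s) (t ∩ {x, y})
    have hb : ({x, y} : Finset ℕ).card ≤ 2 := card_le_two
    have ha := card_le_card (inter_subset_right : t ∩ {x, y} ⊆ {x, y})
    have h10 : t ∩ {x, y} = {x, y} := eq_of_subset_of_card_le inter_subset_right (by omega)
    have h11 : ({x, y} : Finset ℕ) ⊆ t := by rw [← h10]; exact inter_subset_left
    exact ⟨by omega, h11 (by simp), h11 (by simp), hst⟩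

/-- a list that is useful for two non-adjacent sets. -/
theorem both_useful {A s s' t : Finset ℕ} (hs : s.card = 4) (hs' : s'.card = 4)
    (ht : t.card ≤ 6) (hss : (s ∩ s').card ≤ 2) (hAs : ∀ x ∈ A, x ∉ s) (hAs' : ∀ x ∈ A, x ∉ s')
    {x y x' y' : ℕ} (hx : x ∈ A) (hy : y ∈ A) (hxy : x ≠ y) (hx' : x' ∈ A) (hy' : y' ∈ A)
    (h : 5 ≤ (t ∩ (s ∪ {x, y})).card) (h' : 5 ≤ (t ∩ (s' ∪ {x', y'})).card) :
    t ∩ A = {x, y} ∧ (s ∩ s').card = 2 := by
  have hss' : (s' ∩ s).card ≤ 2 := by rw [inter_comm]; exact hss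
  have n1 : ¬ s ⊆ t := by
    intro hst
    have := no_kill (S := {x', y'}) hs ht hst hss (by
      intro z hz
      simp only [mem_insert, mem_singleton] at hz
      rcases hz with rfl | rfl
      · exact hAs _ hx'
      · exact hAs _ hy')
    omega
  have n2 : ¬ s' ⊆ t := by
    intro hst
    have := no_kill (S := {x, y}) hs' ht hst hss' (by
      intro z hz
      simp only [mem_insert, mem_singleton] at hz
      rcases hz with rfl | rfl
      · exact hAs' _ hx
      · exact hAs' _ hy)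
    omega
  rcases kill_cases hs h with h1 | h1
  · exact absurd h1.1 n1
  rcases kill_cases hs' h' with h2 | h2
  · exact absurd h2.1 n2
  have e1 : (t ∩ s ∪ t ∩ s').card + (t ∩ s ∩ (t ∩ s')).card = 6 := by
    rw [card_union_add_card_inter]; omega
  have e2 : (t ∩ s ∩ (t ∩ s')).card ≤ (s ∩ s').card := by
    apply card_le_card
    intro z hz
    simp only [mem_inter] at hz ⊢
    exact ⟨hz.1.2, hz.2.2⟩
  have e3 : (t ∩ s ∪ t ∩ s') ∪ (t ∩ A) ⊆ t := by
    intro z hz
    simp only [mem_union, mem_inter] at hz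
    tauto
  have e4 : Disjoint (t ∩ s ∪ t ∩ s') (t ∩ A) := by
    rw [disjoint_left]
    intro z hz hz2
    simp only [mem_union, mem_inter] at hz hz2
    rcases hz with hz | hz
    · exact hAs z hz2.2 hz.2
    · exact hAs' z hz2.2 hz.2
  have e5 := card_le_card e3
  rw [card_union_of_disjoint e4] at e5
  have e6 : ({x, y} : Finset ℕ) ⊆ t ∩ A := by
    intro z hz
    simp only [mem_insert, mem_singleton] at hz
    rcases hz with rfl | rfl
    · exact mem_inter.2 ⟨h1.2.1, hx⟩
    · exact mem_inter.2 ⟨h1.2.2.1, hy⟩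
  have e7 : ({x, y} : Finset ℕ).card = 2 := card_pair hxy
  have e8 := card_le_card e6
  refine ⟨?_, by omega⟩
  symm
  apply eq_of_subset_of_card_le e6
  omega

/-- `T a = s ∪ r` with `r` two colours of `A` outside `s ∪ s'`. -/
def One (A : Finset ℕ) (t s s' : Finset ℕ) : Prop :=
  s ⊆ t ∧ t \ s ⊆ A ∧ Disjoint (t \ s) s' ∧ (t \ s).card = 2

section
variable {A : Finset ℕ} {T : Fin 3 → Finset ℕ}

theorem halfIII (hA : A.card = 4) (hT : ∀ j, (T j).card ≤ 6) {s s' : Finset ℕ}
    (hs : s.card = 4) (hk : Killed A T s) (hAs : ∀ x ∈ A, x ∉ s) (hAs' : ∀ x ∈ A, x ∉ s')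
    {a b c : Fin 3} (hab : a ≠ b) (hac : a ≠ c) (hbc : b ≠ c)
    (hb : ∀ x ∈ A, ∀ y ∈ A, x ≠ y → (T b ∩ (s ∪ {x, y})).card ≤ 4)
    (hc : ∀ x ∈ A, ∀ y ∈ A, x ≠ y → 5 ≤ (T c ∩ (s ∪ {x, y})).card → T c ∩ A = {x, y}) :
    One A (T a) s s' := by
  have main : ∀ x ∈ A, ∀ y ∈ A, x ≠ y → T c ∩ A ≠ {x, y} →
      5 ≤ (T a ∩ (s ∪ {x, y})).card := by
    intro x hx y hy hxy hne
    obtain ⟨j, hj⟩ := hk.pair hx hy hxy
    rcases fin3 a b c j hab hac hbc with rfl | rfl | rfl
    · exact hj
    · have := hb x hx y hy hxy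
      omega
    · exact absurd (hc x hx y hy hxy hj) hne
  have hst : s ⊆ T a := by
    by_contra hn
    have hall : A ⊆ T a := by
      intro x hx
      have h3 : 3 ≤ (A.erase x).card := by rw [card_erase_of_mem hx]; omega
      obtain ⟨y, hy, z, hz, hyz⟩ := one_lt_card.1 (by omega : 1 < (A.erase x).card)
      simp only [mem_erase] at hy hz
      by_cases h : T c ∩ A = {x, y}
      · have h' : T c ∩ A ≠ {x, z} := by
          intro h2
          have : z ∈ ({x, y} : Finset ℕ) := by rw [← h, h2]; simp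
          simp only [mem_insert, mem_singleton] at this
          rcases this with h4 | h4
          · exact hz.1 h4
          · exact hyz h4.symm
        rcases kill_cases hs (main x hx z hz.2 (Ne.symm hz.1) h') with h5 | h5
        · exact absurd h5.1 hn
        · exact h5.2.1
      · rcases kill_cases hs (main x hx y hy.2 (Ne.symm hy.1) h) with h5 | h5
        · exact absurd h5.1 hn
        · exact h5.2.1
    -- |T a ∩ s| = 3
    obtain ⟨x, hx⟩ : A.Nonempty := by rw [← card_pos]; omega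
    obtain ⟨y, hy, z, hz, hyz⟩ := one_lt_card.1
      (by rw [card_erase_of_mem hx]; omega : 1 < (A.erase x).card)
    simp only [mem_erase] at hy hz
    have h3 : (T a ∩ s).card = 3 := by
      by_cases h : T c ∩ A = {x, y}
      · have h' : T c ∩ A ≠ {x, z} := by
          intro h2
          have : z ∈ ({x, y} : Finset ℕ) := by rw [← h, h2]; simp
          simp only [mem_insert, mem_singleton] at this
          rcases this with h4 | h4
          · exact hz.1 h4
          · exact hyz h4.symm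
        rcases kill_cases hs (main x hx z hz.2 (Ne.symm hz.1) h') with h5 | h5
        · exact absurd h5.1 hn
        · exact h5.1
      · rcases kill_cases hs (main x hx y hy.2 (Ne.symm hy.1) h) with h5 | h5
        · exact absurd h5.1 hn
        · exact h5.1
    have h4 : (T a ∩ s) ∪ A ⊆ T a := union_subset inter_subset_left hall
    have h5 := card_le_card h4
    have h6 : Disjoint (T a ∩ s) A := by
      rw [disjoint_left]
      intro z hz hz2
      exact hAs z hz2 (mem_inter.1 hz).2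
    rw [card_union_of_disjoint h6] at h5
    have := hT a
    omega
  have h1 := card_sdiff_le hs (hT a) hst
  have h2 : T a ∩ A ⊆ T a \ s := by
    intro z hz
    simp only [mem_inter, mem_sdiff] at hz ⊢
    exact ⟨hz.1, hAs z hz.2⟩
  have h3 : (A \ T a).card ≤ 2 := by
    by_contra hcon
    push Not at hcon
    have h4 : (powersetCard 2 (A \ T a)) ⊆ {T c ∩ A} := by
      intro P hP
      rw [mem_powersetCard] at hP
      obtain ⟨x, y, hxy, rfl⟩ := card_eq_two.1 hP.2
      have hx := hP.1 (show x ∈ ({x, y} : Finset ℕ) by simp)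
      have hy := hP.1 (show y ∈ ({x, y} : Finset ℕ) by simp)
      simp only [mem_sdiff] at hx hy
      rw [mem_singleton]
      by_contra hne
      have h5 := main x hx.1 y hy.1 hxy (Ne.symm hne)
      rcases kill_cases hs h5 with h6 | h6
      · rcases h6.2 with h7 | h7
        · exact hx.2 h7
        · exact hy.2 h7
      · exact hx.2 h6.2.1
    have h5 := card_le_card h4
    rw [card_powersetCard, card_singleton] at h5
    have h6 : (A \ T a).card ≤ 4 := by
      have := card_le_card (sdiff_subset : A \ T a ⊆ A)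
      omega
    interval_cases h : (A \ T a).card <;> simp [Nat.choose] at h5
  have h4 : 2 ≤ (T a ∩ A).card := by
    have := card_sdiff_add_card_inter A (T a)
    rw [inter_comm A (T a)] at this
    omega
  have h5 : T a ∩ A = T a \ s := eq_of_subset_of_card_le h2 (by omega)
  refine ⟨hst, ?_, ?_, ?_⟩
  · rw [← h5]; exact inter_subset_right
  · rw [← h5, disjoint_left]
    intro z hz
    exact hAs' z (mem_inter.1 hz).2
  · rw [← h5] at h1 ⊢; omega

theorem caseIII (hA : A.card = 4) (hT : ∀ j, (T j).card ≤ 6) {s s' : Finset ℕ}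
    (hs : s.card = 4) (hs' : s'.card = 4) (hk : Killed A T s) (hk' : Killed A T s')
    (hss : (s ∩ s').card ≤ 2) (hAs : ∀ x ∈ A, x ∉ s) (hAs' : ∀ x ∈ A, x ∉ s') :
    (s ∩ s').card = 2 ∧ ∃ a b, One A (T a) s s' ∧ One A (T b) s' s := by
  have hss' : (s' ∩ s).card ≤ 2 := by rw [inter_comm]; exact hss
  -- useful indices
  have two : ∀ u : Finset ℕ, u.card = 4 → Killed A T u → ∃ i j : Fin 3, i ≠ j ∧
      (∃ x ∈ A, ∃ y ∈ A, x ≠ y ∧ 5 ≤ (T i ∩ (u ∪ {x, y})).card) ∧
      (∃ x ∈ A, ∃ y ∈ A, x ≠ y ∧ 5 ≤ (T j ∩ (u ∪ {x, y})).card) := by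
    intro u hu hku
    obtain ⟨x, hx, y, hy, hxy⟩ := one_lt_card.1 (by omega : 1 < A.card)
    obtain ⟨i, hi⟩ := hku.pair hx hy hxy
    obtain ⟨x', hx', y', hy', hxy', hn⟩ := single (t := T i) hA hu (hT i)
    obtain ⟨j, hj⟩ := hku.pair hx' hy' hxy'
    refine ⟨i, j, ?_, ⟨x, hx, y, hy, hxy, hi⟩, ⟨x', hx', y', hy', hxy', hj⟩⟩
    rintro rfl
    omega
  obtain ⟨i1, i2, hi12, hi1, hi2⟩ := two s hs hk
  obtain ⟨j1, j2, hj12, hj1, hj2⟩ := two s' hs' hk'
  let U : Fin 3 → Prop := fun j => ∃ x ∈ A, ∃ y ∈ A, x ≠ y ∧ 5 ≤ (T j ∩ (s ∪ {x, y})).card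
  let U' : Fin 3 → Prop := fun j => ∃ x ∈ A, ∃ y ∈ A, x ≠ y ∧ 5 ≤ (T j ∩ (s' ∪ {x, y})).card
  have hU1 : U i1 := hi1
  have hU2 : U i2 := hi2
  have hV1 : U' j1 := hj1
  have hV2 : U' j2 := hj2
  have only : ∀ j, U j → U' j → ∀ x ∈ A, ∀ y ∈ A, x ≠ y →
      (5 ≤ (T j ∩ (s ∪ {x, y})).card → T j ∩ A = {x, y}) ∧
      (5 ≤ (T j ∩ (s' ∪ {x, y})).card → T j ∩ A = {x, y}) := by
    rintro j ⟨x1, hx1, y1, hy1, hxy1, h1⟩ ⟨x2, hx2, y2, hy2, hxy2, h2⟩ x hx y hy hxy
    constructor
    · intro h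
      exact (both_useful hs hs' (hT j) hss hAs hAs' hx hy hxy hx2 hy2 h h2).1
    · intro h
      exact (both_useful hs' hs (hT j) hss' hAs' hAs hx hy hxy hx1 hy1 h h1).1
  have p6 : (powersetCard 2 A).card = 6 := by
    rw [card_powersetCard, hA]; rfl
  have uni : ∀ c d : Fin 3, c ≠ d → U c → U' c → U d → U' d → False := by
    intro c d hcd h1 h2 h3 h4
    by_cases hl : ∀ l : Fin 3, l ≠ c → l ≠ d → U l ∧ U' l
    · have : powersetCard 2 A ⊆ univ.image (fun j => T j ∩ A) := by
        intro P hP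
        rw [mem_powersetCard] at hP
        obtain ⟨x, y, hxy, rfl⟩ := card_eq_two.1 hP.2
        have hx := hP.1 (show x ∈ ({x, y} : Finset ℕ) by simp)
        have hy := hP.1 (show y ∈ ({x, y} : Finset ℕ) by simp)
        obtain ⟨j, hj⟩ := hk.pair hx hy hxy
        have hb : U j ∧ U' j := by
          by_cases e1 : j = c
          · rw [e1]; exact ⟨h1, h2⟩
          by_cases e2 : j = d
          · rw [e2]; exact ⟨h3, h4⟩
          exact hl j e1 e2
        rw [mem_image]
        exact ⟨j, mem_univ _, (only j hb.1 hb.2 x hx y hy hxy).1 hj⟩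
      have h5 := card_le_card this
      have h6 : (univ.image (fun j => T j ∩ A)).card ≤ 3 := by
        have := card_image_le (s := (univ : Finset (Fin 3))) (f := fun j => T j ∩ A)
        simpa using this
      omega
    · push Not at hl
      obtain ⟨l, hlc, hld, hl⟩ := hl
      have : powersetCard 2 A ⊆ {T c ∩ A, T d ∩ A} := by
        intro P hP
        rw [mem_powersetCard] at hP
        obtain ⟨x, y, hxy, rfl⟩ := card_eq_two.1 hP.2
        have hx := hP.1 (show x ∈ ({x, y} : Finset ℕ) by simp)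
        have hy := hP.1 (show y ∈ ({x, y} : Finset ℕ) by simp)
        simp only [mem_insert, mem_singleton]
        by_cases hUl : U l
        · obtain ⟨j, hj⟩ := hk'.pair hx hy hxy
          rcases fin3 c d l j hcd (Ne.symm hlc) (Ne.symm hld) with rfl | rfl | rfl
          · exact Or.inl ((only _ h1 h2 x hx y hy hxy).2 hj).symm
          · exact Or.inr ((only _ h3 h4 x hx y hy hxy).2 hj).symm
          · exact absurd ⟨x, hx, y, hy, hxy, hj⟩ (hl hUl)
        · obtain ⟨j, hj⟩ := hk.pair hx hy hxy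
          rcases fin3 c d l j hcd (Ne.symm hlc) (Ne.symm hld) with rfl | rfl | rfl
          · exact Or.inl ((only _ h1 h2 x hx y hy hxy).1 hj).symm
          · exact Or.inr ((only _ h3 h4 x hx y hy hxy).1 hj).symm
          · exact absurd ⟨x, hx, y, hy, hxy, hj⟩ hUl
      have h5 := card_le_card this
      have h6 : ({T c ∩ A, T d ∩ A} : Finset (Finset ℕ)).card ≤ 2 := card_le_two
      omega
  obtain ⟨c, hc, hc'⟩ : ∃ c, U c ∧ U' c := by
    have : i1 = j1 ∨ i1 = j2 ∨ i2 = j1 ∨ i2 = j2 := by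
      revert hi12 hj12
      clear * -
      revert i1 i2 j1 j2
      decide
    rcases this with h | h | h | h
    · exact ⟨i1, hU1, h ▸ hV1⟩
    · exact ⟨i1, hU1, h ▸ hV2⟩
    · exact ⟨i2, hU2, h ▸ hV1⟩
    · exact ⟨i2, hU2, h ▸ hV2⟩
  obtain ⟨a, hac, ha⟩ : ∃ a, a ≠ c ∧ U a := by
    by_cases h : i1 = c
    · exact ⟨i2, fun h2 => hi12 (h.trans h2.symm), hU2⟩
    · exact ⟨i1, h, hU1⟩
  obtain ⟨b, hbc, hb⟩ : ∃ b, b ≠ c ∧ U' b := by
    by_cases h : j1 = c
    · exact ⟨j2, fun h2 => hj12 (h.trans h2.symm), hV2⟩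
    · exact ⟨j1, h, hV1⟩
  have ha' : ¬ U' a := fun h => uni a c hac ha h hc hc'
  have hb' : ¬ U b := fun h => uni b c hbc h hb hc hc'
  have hab : a ≠ b := by
    rintro rfl
    exact ha' hb
  refine ⟨?_, a, b, ?_, ?_⟩
  · obtain ⟨x1, hx1, y1, hy1, hxy1, h1⟩ := hc
    obtain ⟨x2, hx2, y2, hy2, hxy2, h2⟩ := hc'
    exact (both_useful hs hs' (hT c) hss hAs hAs' hx1 hy1 hxy1 hx2 hy2 h1 h2).2
  · apply halfIII hA hT hs hk hAs hAs' hab hac hbc
    · intro x hx y hy hxy
      by_contra hcon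
      exact hb' ⟨x, hx, y, hy, hxy, by omega⟩
    · intro x hx y hy hxy h
      exact (only c hc hc' x hx y hy hxy).1 h
  · apply halfIII hA hT hs' hk' hAs' hAs (Ne.symm hab) hbc hac
    · intro x hx y hy hxy
      by_contra hcon
      exact ha' ⟨x, hx, y, hy, hxy, by omega⟩
    · intro x hx y hy hxy h
      exact (only c hc hc' x hx y hy hxy).2 h

end

end Pool.Agent.H33.AB
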