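import Pool.Agent.H33.AB.CompA
import Pool.Agent.H33.AB.CompB

set_option autoImplicit false

open Finset

namespace Pool.Agent.H33.AB

theorem tb_eq (v c : ℕ) : tb v c = v.testBit c := by
  have h1 : Nat.land 1 (Nat.shiftRight v c) = (v >>> c) % 2 := Nat.one_and_eq_mod_two (v >>> c)
  have h2 : v.testBit c = ((v >>> c) % 2 != 0) := by
    unfold Nat.testBit
    rw [Nat.one_and_eq_mod_two]
  unfold tb
  rw [h1, h2]
  rcases Nat.mod_two_eq_zero_or_one (v >>> c) with h | h <;> rw [h] <;> rfl

theorem nz_iff (v : ℕ) : nz v = true ↔ v ≠ 0 := by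
  unfold nz
  rw [Nat.ble_eq]
  omega

theorem far_comm (a b : ℕ) : far a b = far b a := by
  unfold far
  rw [show Nat.land (cm a) (cm b) = Nat.land (cm b) (cm a) from Nat.land_comm _ _]

theorem non_comm (a b : ℕ) : non a b = non b a := by
  unfold non
  rw [show Nat.land (cm a) (cm b) = Nat.land (cm b) (cm a) from Nat.land_comm _ _]

theorem ne'_iff (a b : ℕ) : ne' a b = true ↔ a ≠ b := by
  unfold ne'
  rw [Bool.not_eq_true', ← Bool.not_eq_true, Nat.beq_eq]

/-- hypotheses on the set `K` of cells. -/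
structure Hyp (K : ℕ → Prop) : Prop where
  h1 : ∀ a c, a < 36 → c < 36 → K a → K c → far a c = true → False
  h2 : ∀ x y z, x < 36 → y < 36 → z < 36 → K x → K y → K z → x ≠ y → non x z = true →
    non y z = true → False
  h3 : ∀ a b c d, a < 36 → b < 36 → c < 36 → d < 36 → K a → K b → K c → K d →
    a ≠ b → a ≠ c → a ≠ d → b ≠ c → b ≠ d → c ≠ d → non a c = true → non b d = true →
    Nat.lor (cm a) (cm c) = Nat.lor (cm b) (cm d) → False

variable {K : ℕ → Prop}

theorem bad_sound (H : Hyp K) {l : List ℕ} {c : ℕ} (hl : ∀ a ∈ l, a < 36 ∧ K a) (hc : c < 36)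
    (hK : K c) : bad l c = false := by
  rw [← Bool.not_eq_true]
  intro hb
  unfold bad at hb
  rw [List.any_eq_true] at hb
  obtain ⟨a, ha, hb⟩ := hb
  obtain ⟨ha1, ha2⟩ := hl a ha
  rw [Bool.or_eq_true] at hb
  rcases hb with hb | hb
  · exact H.h1 a c ha1 hc ha2 hK hb
  rw [List.any_eq_true] at hb
  obtain ⟨b, hbl, hb⟩ := hb
  obtain ⟨hb1, hb2⟩ := hl b hbl
  simp only [Bool.and_eq_true, Bool.or_eq_true, ne'_iff, List.any_eq_true] at hb
  obtain ⟨hab, hb⟩ := hb
  rcases hb with (⟨h1, h2⟩ | ⟨⟨h1, h2⟩, h3⟩) | ⟨⟨⟨h1, h2⟩, h3⟩, d, hd, ⟨⟨⟨h4, h5⟩, h6⟩, h7⟩, h8⟩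
  · exact H.h2 a b c ha1 hb1 hc ha2 hb2 hK hab h1 h2
  · exact H.h2 b c a hb1 hc ha1 hb2 hK ha2 h3 (by rw [non_comm]; exact h1)
      (by rw [non_comm]; exact h2)
  · obtain ⟨hd1, hd2⟩ := hl d hd
    exact H.h3 a b c d ha1 hb1 hc hd1 ha2 hb2 hK hd2 hab h2 h4 h3 h5 h6 h1 h7
      (Nat.eq_of_beq_eq_true h8)

theorem badList_sound (H : Hyp K) : ∀ l : List ℕ, (∀ a ∈ l, a < 36 ∧ K a) → badList l = false
  | [], _ => rfl
  | c :: l, hl => by
    have h1 := bad_sound H (l := l) (c := c) (fun a ha => hl a (List.mem_cons_of_mem _ ha))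
      (hl c (List.mem_cons_self)).1 (hl c (List.mem_cons_self)).2
    have h2 := badList_sound H l (fun a ha => hl a (List.mem_cons_of_mem _ ha))
    simp only [badList, h1, h2, Bool.or_self]

open Classical in
theorem dfs_sound (H : Hyp K) : ∀ (n : ℕ) (l cand : List ℕ), dfs n l cand = true →
    (∀ a ∈ l, a < 36 ∧ K a) → (∀ a ∈ cand, a < 36) →
    (cand.filter (fun a => decide (K a))).length < n := by
  intro n
  induction n with
  | zero => intro l cand h; simp [dfs] at h
  | succ n ih =>
    intro l cand h hl hc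
    have key : ∀ cand : List ℕ, goC (fun c cs => bad l c || dfs n (c :: l) cs) cand = true →
        (∀ a ∈ cand, a < 36) → (cand.filter (fun a => decide (K a))).length < n + 1 := by
      intro cand
      induction cand with
      | nil => intro _ _; simp
      | cons c cs ih2 =>
        intro h hc
        simp only [goC, Bool.and_eq_true] at h
        by_cases hKc : K c
        · have h1 := bad_sound H hl (hc c List.mem_cons_self) hKc
          rw [h1, Bool.false_or] at h
          have h2 := ih (c :: l) cs h.1 (by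
            intro a ha
            rcases List.mem_cons.1 ha with rfl | ha
            · exact ⟨hc _ List.mem_cons_self, hKc⟩
            · exact hl a ha) (fun a ha => hc a (List.mem_cons_of_mem _ ha))
          rw [List.filter_cons_of_pos (by simpa using hKc)]
          simp only [List.length_cons]
          omega
        · rw [List.filter_cons_of_neg (by simpa using hKc)]
          exact ih2 h.2 (fun a ha => hc a (List.mem_cons_of_mem _ ha))
    exact key cand h hc

/-- number of bits below `36`. -/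
def cnt (v : ℕ) : ℕ := ((range 36).filter (fun c => v.testBit c = true)).card

theorem clr_lt {v : ℕ} (hv : v < 2 ^ 36) : clr v < 2 ^ 36 :=
  lt_of_le_of_lt (Nat.and_le_left : v &&& v.pred ≤ v) hv

theorem cnt_clr {v : ℕ} (hv : v < 2 ^ 36) (h0 : v ≠ 0) : cnt (clr v) < cnt v := by
  unfold cnt
  apply card_lt_card
  rw [Finset.ssubset_iff_subset_ne]
  constructor
  · intro c hc
    simp only [mem_filter, mem_range] at hc ⊢
    refine ⟨hc.1, ?_⟩
    have h1 : (v &&& v.pred).testBit c = true := hc.2
    rw [Nat.testBit_and, Bool.and_eq_true] at h1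
    exact h1.1
  · intro heq
    have h2 : clr v = v := by
      apply Nat.eq_of_testBit_eq
      intro i
      by_cases hi : i < 36
      · have h3 : i ∈ (range 36).filter (fun c => (clr v).testBit c = true) ↔
            i ∈ (range 36).filter (fun c => v.testBit c = true) := by rw [heq]
        simp only [mem_filter, mem_range, hi, true_and] at h3
        rcases hb : v.testBit i with _ | _
        · rw [← Bool.not_eq_true]
          rw [hb] at h3
          intro h4
          exact absurd (h3.1 h4) (by simp)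
        · exact h3.2 hb
      · have h4 : 2 ^ 36 ≤ 2 ^ i := Nat.pow_le_pow_right (by norm_num) (by omega)
        rw [Nat.testBit_lt_two_pow (lt_of_lt_of_le (clr_lt hv) h4),
          Nat.testBit_lt_two_pow (lt_of_lt_of_le hv h4)]
    have h3 : clr v ≤ v.pred := (Nat.and_le_right : v &&& v.pred ≤ v.pred)
    have h4 : v.pred = v - 1 := rfl
    omega

theorem clr_ne {v : ℕ} (h : clr v ≠ 0) : v ≠ 0 := by
  rintro rfl
  exact h rfl

theorem clr_step {v n : ℕ} (hv : v < 2 ^ 36) (h : clr v ≠ 0) (hn : n ≤ cnt (clr v)) :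
    n + 1 ≤ cnt v := by
  have := cnt_clr hv (clr_ne h)
  omega

theorem cnt_pos {v : ℕ} (hv : v < 2 ^ 36) (h : v ≠ 0) : 1 ≤ cnt v := by
  have := cnt_clr hv h
  omega

theorem big4_cnt {v : ℕ} (hv : v < 2 ^ 36) (h : big4 v = true) : 5 ≤ cnt v := by
  unfold big4 at h
  rw [nz_iff] at h
  have h1 := clr_ne h
  have h2 := clr_ne h1
  have h3 := clr_ne h2
  have v1 := clr_lt hv
  have v2 := clr_lt v1
  have v3 := clr_lt v2
  have v4 := clr_lt v3
  exact clr_step hv h3 (clr_step v1 h2 (clr_step v2 h1 (clr_step v3 h (cnt_pos v4 h))))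

theorem big13_cnt {v : ℕ} (hv : v < 2 ^ 36) (h : big13 v = true) : 14 ≤ cnt v := by
  unfold big13 at h
  rw [nz_iff] at h
  have g1 := clr_ne h
  have g2 := clr_ne g1
  have g3 := clr_ne g2
  have g4 := clr_ne g3
  have g5 := clr_ne g4
  have g6 := clr_ne g5
  have g7 := clr_ne g6
  have g8 := clr_ne g7
  have g9 := clr_ne g8
  have g10 := clr_ne g9
  have g11 := clr_ne g10
  have g12 := clr_ne g11
  have v1 := clr_lt hv
  have v2 := clr_lt v1
  have v3 := clr_lt v2
  have v4 := clr_lt v3
  have v5 := clr_lt v4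
  have v6 := clr_lt v5
  have v7 := clr_lt v6
  have v8 := clr_lt v7
  have v9 := clr_lt v8
  have v10 := clr_lt v9
  have v11 := clr_lt v10
  have v12 := clr_lt v11
  have v13 := clr_lt v12
  exact clr_step hv g12 (clr_step v1 g11 (clr_step v2 g10 (clr_step v3 g9 (clr_step v4 g8
    (clr_step v5 g7 (clr_step v6 g6 (clr_step v7 g5 (clr_step v8 g4 (clr_step v9 g3
    (clr_step v10 g2 (clr_step v11 g1 (clr_step v12 h (cnt_pos v13 h)))))))))))))

theorem go_sound (f : List ℕ → ℕ → Bool) (v : ℕ) : ∀ (L : List ℕ), go f v L = true →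
    ∀ i, i < L.length → f (L.drop i) (Nat.land v (L.getD i 0)) = true := by
  intro L
  induction L with
  | nil => intro _ i hi; simp at hi
  | cons x xs ih =>
    intro h i hi
    simp only [go, Bool.and_eq_true] at h
    cases i with
    | zero => simpa using h.1
    | succ i =>
      have := ih h.2 i (by simpa using hi)
      simpa using this

theorem chk_sound (pr fin : ℕ → Bool) (L : List ℕ) (Inv F : ℕ → Prop)
    (hInv : ∀ v x, Inv v → Inv (Nat.land v x))
    (hfin : ∀ v, Inv v → fin v = true → F v)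
    (hpr : ∀ v, Inv v → pr v = true → ∀ i, i < L.length → F (Nat.land v (L.getD i 0))) :
    ∀ (n i v : ℕ), Inv v → chk pr fin (n + 1) (L.drop i) v = true → ∀ ks : List ℕ,
      ks.length = n + 1 → (i :: ks).Pairwise (· ≤ ·) → (∀ k ∈ ks, k < L.length) →
      F (ks.foldl (fun v k => Nat.land v (L.getD k 0)) v) := by
  intro n
  induction n with
  | zero =>
    intro i v hv h ks hlen hs hk
    obtain ⟨k, rfl⟩ := List.length_eq_one_iff.1 hlen
    simp only [List.foldl_cons, List.foldl_nil]
    have hk1 : k < L.length := hk k (by simp)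
    have hik : i ≤ k := by simpa using hs
    simp only [chk, Bool.or_eq_true] at h
    rcases h with h | h
    · exact hpr v hv h k hk1
    · have h1 := go_sound _ v (L.drop i) h (k - i) (by rw [List.length_drop]; omega)
      apply hfin _ (hInv _ _ hv)
      have h2 : (L.drop i).getD (k - i) 0 = L.getD k 0 := by
        simp only [List.getD_eq_getElem?_getD, List.getElem?_drop]
        rw [Nat.add_sub_cancel' hik]
      rw [← h2]; exact h1
  | succ n ih =>
    intro i v hv h ks hlen hs hk
    obtain ⟨k, ks', rfl⟩ : ∃ k ks', ks = k :: ks' := by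
      cases ks with
      | nil => simp at hlen
      | cons k ks' => exact ⟨k, ks', rfl⟩
    simp only [List.foldl_cons]
    have hk1 : k < L.length := hk k (by simp)
    have hik : i ≤ k := by
      have := (List.pairwise_cons.1 hs).1 k (by simp)
      exact this
    have h1 := go_sound _ v (L.drop i) (by simpa only [chk] using h) (k - i)
      (by rw [List.length_drop]; omega)
    have h2 : (L.drop i).getD (k - i) 0 = L.getD k 0 := by
      simp only [List.getD_eq_getElem?_getD, List.getElem?_drop]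
      rw [Nat.add_sub_cancel' hik]
    have h3 : (L.drop i).drop (k - i) = L.drop k := by
      rw [List.drop_drop, Nat.add_sub_cancel' hik]
    rw [h2, h3] at h1
    exact ih k _ (hInv _ _ hv) h1 ks' (by simpa using hlen) (List.pairwise_cons.1 hs).2
      (fun x hx => hk x (List.mem_cons_of_mem _ hx))

/-- the version for arbitrary quadruples. -/
theorem chk4_sound (pr fin : ℕ → Bool) (L : List ℕ) (Inv F : ℕ → Prop) (v0 : ℕ) (hv0 : Inv v0)
    (hInv : ∀ v x, Inv v → Inv (Nat.land v x))
    (hfin : ∀ v, Inv v → fin v = true → F v)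
    (hpr : ∀ v, Inv v → pr v = true → ∀ i, i < L.length → F (Nat.land v (L.getD i 0)))
    (h : chk pr fin 4 L v0 = true) (k : Fin 4 → ℕ) (hk : ∀ i, k i < L.length) :
    ∃ v, F v ∧ v ≤ v0 ∧ ∀ c, v.testBit c = true ↔ (v0.testBit c = true ∧ ∀ i,
      (L.getD (k i) 0).testBit c = true) := by
  set ks : List ℕ := (List.ofFn k).insertionSort (· ≤ ·) with hks
  have hperm : ks.Perm (List.ofFn k) := List.perm_insertionSort _ _
  have hlen : ks.length = 3 + 1 := by rw [hperm.length_eq]; simp
  have hmem : ∀ x, x ∈ ks ↔ ∃ i, k i = x := by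
    intro x
    rw [hperm.mem_iff, List.mem_ofFn]
  have hsort : ks.Pairwise (· ≤ ·) := List.pairwise_insertionSort _ _
  have h1 := chk_sound pr fin L Inv F hInv hfin hpr 3 0 v0 hv0 (by simpa using h) ks hlen
    (List.pairwise_cons.2 ⟨fun _ _ => Nat.zero_le _, hsort⟩)
    (by intro x hx; obtain ⟨i, rfl⟩ := (hmem x).1 hx; exact hk i)
  have h2 : ∀ (l : List ℕ) (v : ℕ),
      (l.foldl (fun v k => Nat.land v (L.getD k 0)) v ≤ v) ∧ 
      ∀ c, (l.foldl (fun v k => Nat.land v (L.getD k 0)) v).testBit c =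
      true ↔ (v.testBit c = true ∧ ∀ k ∈ l, (L.getD k 0).testBit c = true) := by
    intro l
    induction l with
    | nil => intro v; simp
    | cons x xs ih =>
      intro v
      simp only [List.foldl_cons]
      refine ⟨(ih _).1.trans Nat.and_le_left, ?_⟩
      intro c
      rw [(ih _).2]
      have h3 : (Nat.land v (L.getD x 0)).testBit c = (v.testBit c && (L.getD x 0).testBit c) :=
        Nat.testBit_and _ _ _
      rw [h3, Bool.and_eq_true]
      simp only [List.mem_cons, forall_eq_or_imp]
      tauto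
  refine ⟨_, h1, (h2 ks v0).1, ?_⟩
  intro c
  rw [(h2 ks v0).2]
  constructor
  · rintro ⟨h3, h4⟩
    exact ⟨h3, fun i => h4 _ ((hmem _).2 ⟨i, rfl⟩)⟩
  · rintro ⟨h3, h4⟩
    refine ⟨h3, fun x hx => ?_⟩
    obtain ⟨i, rfl⟩ := (hmem x).1 hx
    exact h4 i

end Pool.Agent.H33.AB
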